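import Mathlib

section
/-!
# Eulerian orientations of finite multigraphs

An edge `e` has the ends `p e` and `q e`. If every vertex has even degree, there are signs `σ e`
(`1`: from `p e` to `q e`) such that every vertex has as many incoming as outgoing edges.
-/
open Finset

namespace WoodW

variable {V E : Type} [DecidableEq V] [DecidableEq E]

/-- indicator of an equation -/
def ind (a b : V) : ℤ := if a = b then 1 else 0

theorem ind_self (a : V) : ind a a = 1 := if_pos rfl

theorem ind_ne {a b : V} (h : a ≠ b) : ind a b = 0 := if_neg h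

theorem ind_nonneg (a b : V) : 0 ≤ ind a b := by
  unfold ind; split_ifs <;> norm_num

/-- **Eulerian orientation** -/
theorem euler : ∀ (n : ℕ) (F : Finset E) (p q : E → V), F.card = n →
    (∀ v, Even (∑ e ∈ F, (ind (p e) v + ind (q e) v))) →
    ∃ σ : E → ℤ, (∀ e, σ e = 1 ∨ σ e = -1) ∧
      ∀ v, ∑ e ∈ F, σ e * (ind (q e) v - ind (p e) v) = 0 := by
  intro n
  induction n with
  | zero =>
    intro F p q hF _
    rw [card_eq_zero] at hF
    subst hF
    exact ⟨fun _ => 1, fun _ => Or.inl rfl, fun v => by simp⟩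
  | succ n ih =>
    intro F p q hF hev
    obtain ⟨e, he⟩ : F.Nonempty := card_pos.1 (by omega)
    by_cases hloop : p e = q e
    · -- a loop
      obtain ⟨σ, h1, h2⟩ := ih (F.erase e) p q (by rw [card_erase_of_mem he]; omega) (by
        intro v
        have h3 := hev v
        rw [← add_sum_erase _ _ he] at h3
        have h4 : Even (ind (p e) v + ind (q e) v) := by
          rw [hloop]; exact ⟨ind (q e) v, rfl⟩
        exact (Int.even_add.1 h3).1 h4)
      refine ⟨σ, h1, fun v => ?_⟩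
      rw [← add_sum_erase _ _ he, h2 v, hloop]
      ring
    · -- another edge at `q e`
      have h3 := hev (q e)
      rw [← add_sum_erase _ _ he, ind_self, ind_ne hloop] at h3
      obtain ⟨f, hf, hf2⟩ : ∃ f ∈ F.erase e, p f = q e ∨ q f = q e := by
        by_contra hn
        push Not at hn
        have h4 : ∑ x ∈ F.erase e, (ind (p x) (q e) + ind (q x) (q e)) = 0 := by
          refine sum_eq_zero fun x hx => ?_
          obtain ⟨a1, a2⟩ := hn x hx
          rw [ind_ne a1, ind_ne a2]; rfl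
        rw [h4] at h3
        exact absurd h3 (by decide)
      have hfe : f ≠ e := (mem_erase.1 hf).1
      have hfF : f ∈ F := (mem_erase.1 hf).2
      -- orient `f` away from `q e`
      obtain ⟨b, s, hs, hb, hsym⟩ : ∃ (b : V) (s : ℤ), (s = 1 ∨ s = -1) ∧
          (∀ v, ind (p f) v + ind (q f) v = ind (q e) v + ind b v) ∧
          (∀ v, s * (ind (q f) v - ind (p f) v) = ind b v - ind (q e) v) := by
        rcases hf2 with h4 | h4
        · exact ⟨q f, 1, Or.inl rfl, fun v => by rw [h4], fun v => by rw [h4, one_mul]⟩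
        · exact ⟨p f, -1, Or.inr rfl, fun v => by rw [h4, add_comm], fun v => by rw [h4]; ring⟩
      have hemem : e ∈ F.erase f := mem_erase.2 ⟨hfe.symm, he⟩
      obtain ⟨σ, h1, h2⟩ := ih (F.erase f) p (Function.update q e b)
        (by rw [card_erase_of_mem hfF]; omega) (by
        intro v
        have h5 := hev v
        rw [← add_sum_erase _ _ hfF, ← add_sum_erase _ _ hemem, hb v] at h5
        rw [← add_sum_erase _ _ hemem, Function.update_self]
        have h6 : ∑ x ∈ (F.erase f).erase e, (ind (p x) v + ind (Function.update q e b x) v) =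
            ∑ x ∈ (F.erase f).erase e, (ind (p x) v + ind (q x) v) := by
          refine sum_congr rfl fun x hx => ?_
          rw [Function.update_of_ne (mem_erase.1 hx).1]
        rw [h6]
        have h7 : ind (q e) v + ind b v + (ind (p e) v + ind (q e) v +
            ∑ x ∈ (F.erase f).erase e, (ind (p x) v + ind (q x) v)) =
            (ind (p e) v + ind b v + ∑ x ∈ (F.erase f).erase e, (ind (p x) v + ind (q x) v)) +
            (ind (q e) v + ind (q e) v) := by ring
        rw [h7] at h5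
        exact (Int.even_add.1 h5).2 ⟨_, rfl⟩)
      refine ⟨Function.update σ f (σ e * s), ?_, fun v => ?_⟩
      · intro x
        by_cases hx : x = f
        · subst hx
          rw [Function.update_self]
          rcases h1 e with h | h <;> rcases hs with h' | h' <;> rw [h, h'] <;> norm_num
        · rw [Function.update_of_ne hx]; exact h1 x
      · have h5 := h2 v
        rw [← add_sum_erase _ _ hemem, Function.update_self] at h5
        rw [← add_sum_erase _ _ hfF, ← add_sum_erase _ _ hemem, Function.update_self,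
          Function.update_of_ne hfe.symm, mul_assoc, hsym v]
        have h6 : ∑ x ∈ (F.erase f).erase e, Function.update σ f (σ e * s) x *
            (ind (q x) v - ind (p x) v) = ∑ x ∈ (F.erase f).erase e, σ x *
            (ind (Function.update q e b x) v - ind (p x) v) := by
          refine sum_congr rfl fun x hx => ?_
          have h8 := mem_erase.1 hx
          rw [Function.update_of_ne (mem_erase.1 h8.2).1, Function.update_of_ne h8.1]
        rw [h6]
        linarith [h5]

end WoodW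
end

section
/-!
# The finite uncrossing calculus for the one-sided half theorem (helper16)

An undirected multigraph: edges `e : E` with ends `tl e`, `hd e`.  A state is `s : E → ℤ` with
values `-1, 0, 1` (`0` = undecided, `1` = oriented `tl → hd`, `-1` = reversed).

* `cr X` number of edges crossing `X`, `yy s X` net inflow of `s` into `X`,
  `ff s X = cr X + yy s X = 2 in_A X + d_G' X`, `ee X Y` number of edges between `X` and `Y`.
* `ff_inter_union`, `ff_sdiff` : the two uncrossing identities, `ff_add` : `ff (s + t) = ff s + yy t`.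
* `Adm r rt m s` : `2 m ≤ ff s X` for all nonempty up-sets and down-sets `X` avoiding `rt`.
* `tight_inter_union` (same type), `mixed_le`, `mixed_tight` (an up-set and a down-set).
-/
namespace Pool.Agent.Lib.MP492a9eW

open Finset

set_option linter.unusedSectionVars false

section Calc

variable {V E : Type*} [Fintype V] [DecidableEq V] [Fintype E] (tl hd : E → V)

/-- indicator of a vertex set -/
def ind (X : Finset V) (v : V) : ℤ := if v ∈ X then 1 else 0

/-- number of edges crossing `X` -/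
def cr (X : Finset V) : ℤ := ∑ e : E, |ind X (hd e) - ind X (tl e)|

/-- net inflow of `s` into `X` -/
def yy (s : E → ℤ) (X : Finset V) : ℤ := ∑ e : E, s e * (ind X (hd e) - ind X (tl e))

/-- `2 in_A + d_G'` -/
def ff (s : E → ℤ) (X : Finset V) : ℤ := cr tl hd X + yy tl hd s X

/-- number of edges between `X` and `Y` (used for disjoint `X`, `Y`) -/
def ee (X Y : Finset V) : ℤ :=
  ∑ e : E, (ind X (hd e) * ind Y (tl e) + ind X (tl e) * ind Y (hd e))

variable {tl hd}

theorem ind_inter (X Y : Finset V) (v : V) : ind (X ∩ Y) v = ind X v * ind Y v := by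
  unfold ind; by_cases h1 : v ∈ X <;> by_cases h2 : v ∈ Y <;> simp [h1, h2]

theorem ind_union (X Y : Finset V) (v : V) :
    ind (X ∪ Y) v = ind X v + ind Y v - ind X v * ind Y v := by
  unfold ind; by_cases h1 : v ∈ X <;> by_cases h2 : v ∈ Y <;> simp [h1, h2]

theorem ind_sdiff (X Y : Finset V) (v : V) : ind (X \ Y) v = ind X v - ind X v * ind Y v := by
  unfold ind; by_cases h1 : v ∈ X <;> by_cases h2 : v ∈ Y <;> simp [h1, h2]

theorem ind_compl (X : Finset V) (v : V) : ind Xᶜ v = 1 - ind X v := by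
  unfold ind; by_cases h1 : v ∈ X <;> simp [h1]

theorem ind_cases (X : Finset V) (v : V) : ind X v = 0 ∨ ind X v = 1 := by
  unfold ind; by_cases h1 : v ∈ X <;> simp [h1]

theorem ind_mem {X : Finset V} {v : V} (h : v ∈ X) : ind X v = 1 := by simp [ind, h]

theorem ind_not_mem {X : Finset V} {v : V} (h : v ∉ X) : ind X v = 0 := by simp [ind, h]

theorem ind_empty (v : V) : ind (∅ : Finset V) v = 0 := by simp [ind]

theorem ind_univ (v : V) : ind (univ : Finset V) v = 1 := by simp [ind]

/-! ### the net inflow is modular -/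

theorem yy_inter_union (s : E → ℤ) (X Y : Finset V) :
    yy tl hd s (X ∩ Y) + yy tl hd s (X ∪ Y) = yy tl hd s X + yy tl hd s Y := by
  unfold yy
  rw [← sum_add_distrib, ← sum_add_distrib]
  refine sum_congr rfl fun e _ => ?_
  rw [ind_inter, ind_inter, ind_union, ind_union]; ring

theorem yy_sdiff (s : E → ℤ) (X Y : Finset V) :
    yy tl hd s (X \ Y) = yy tl hd s X - yy tl hd s (X ∩ Y) := by
  unfold yy
  rw [← sum_sub_distrib]
  refine sum_congr rfl fun e _ => ?_
  rw [ind_inter, ind_inter, ind_sdiff, ind_sdiff]; ring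

theorem yy_compl (s : E → ℤ) (X : Finset V) : yy tl hd s Xᶜ = - yy tl hd s X := by
  unfold yy
  rw [← sum_neg_distrib]
  refine sum_congr rfl fun e _ => ?_
  rw [ind_compl, ind_compl]; ring

theorem yy_empty (s : E → ℤ) : yy tl hd s (∅ : Finset V) = 0 := by
  unfold yy; simp [ind_empty]

theorem yy_univ (s : E → ℤ) : yy tl hd s (univ : Finset V) = 0 := by
  unfold yy; simp [ind_univ]

theorem yy_add (s t : E → ℤ) (X : Finset V) :
    yy tl hd (s + t) X = yy tl hd s X + yy tl hd t X := by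
  unfold yy
  rw [← sum_add_distrib]
  refine sum_congr rfl fun e _ => ?_
  rw [Pi.add_apply]; ring

theorem yy_neg (s : E → ℤ) (X : Finset V) : yy tl hd (-s) X = - yy tl hd s X := by
  unfold yy
  rw [← sum_neg_distrib]
  refine sum_congr rfl fun e _ => ?_
  rw [Pi.neg_apply]; ring

theorem yy_zero (X : Finset V) : yy tl hd (0 : E → ℤ) X = 0 := by
  unfold yy; simp

/-! ### crossing numbers -/

theorem cr_nonneg (X : Finset V) : 0 ≤ cr tl hd X := sum_nonneg fun _ _ => abs_nonneg _

theorem ee_nonneg (X Y : Finset V) : 0 ≤ ee tl hd X Y := by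
  refine sum_nonneg fun e _ => ?_
  rcases ind_cases X (hd e) with h1 | h1 <;> rcases ind_cases X (tl e) with h2 | h2 <;>
    rcases ind_cases Y (hd e) with h3 | h3 <;> rcases ind_cases Y (tl e) with h4 | h4 <;>
      simp [h1, h2, h3, h4]

theorem ee_comm (X Y : Finset V) : ee tl hd X Y = ee tl hd Y X := by
  unfold ee
  refine sum_congr rfl fun e _ => ?_
  ring

theorem cr_compl (X : Finset V) : cr tl hd Xᶜ = cr tl hd X := by
  unfold cr
  refine sum_congr rfl fun e _ => ?_
  rw [ind_compl, ind_compl, ← abs_neg]; congr 1; ring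

theorem cr_eq_ee (X : Finset V) : cr tl hd X = ee tl hd X Xᶜ := by
  unfold cr ee
  refine sum_congr rfl fun e _ => ?_
  rw [ind_compl, ind_compl]
  rcases ind_cases X (hd e) with h1 | h1 <;> rcases ind_cases X (tl e) with h2 | h2 <;>
    simp [h1, h2]

theorem cr_inter_union (X Y : Finset V) :
    cr tl hd X + cr tl hd Y = cr tl hd (X ∩ Y) + cr tl hd (X ∪ Y)
      + 2 * ee tl hd (X \ Y) (Y \ X) := by
  unfold cr ee
  rw [← sum_add_distrib, ← sum_add_distrib, mul_sum, ← sum_add_distrib]
  refine sum_congr rfl fun e _ => ?_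
  simp only [ind_inter, ind_union, ind_sdiff]
  rcases ind_cases X (hd e) with h1 | h1 <;> rcases ind_cases X (tl e) with h2 | h2 <;>
    rcases ind_cases Y (hd e) with h3 | h3 <;> rcases ind_cases Y (tl e) with h4 | h4 <;>
      simp [h1, h2, h3, h4]

theorem cr_sdiff (X Y : Finset V) :
    cr tl hd X + cr tl hd Y = cr tl hd (X \ Y) + cr tl hd (Y \ X)
      + 2 * ee tl hd (X ∩ Y) (X ∪ Y)ᶜ := by
  unfold cr ee
  rw [← sum_add_distrib, ← sum_add_distrib, mul_sum, ← sum_add_distrib]
  refine sum_congr rfl fun e _ => ?_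
  simp only [ind_inter, ind_union, ind_sdiff, ind_compl]
  rcases ind_cases X (hd e) with h1 | h1 <;> rcases ind_cases X (tl e) with h2 | h2 <;>
    rcases ind_cases Y (hd e) with h3 | h3 <;> rcases ind_cases Y (tl e) with h4 | h4 <;>
      simp [h1, h2, h3, h4]

/-! ### the function `ff` -/

theorem ff_inter_union (s : E → ℤ) (X Y : Finset V) :
    ff tl hd s X + ff tl hd s Y = ff tl hd s (X ∩ Y) + ff tl hd s (X ∪ Y)
      + 2 * ee tl hd (X \ Y) (Y \ X) := by
  have h1 := cr_inter_union (tl := tl) (hd := hd) X Y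
  have h2 := yy_inter_union (tl := tl) (hd := hd) s X Y
  unfold ff; linarith

theorem ff_sdiff (s : E → ℤ) (X Y : Finset V) :
    ff tl hd s X + ff tl hd s Y = ff tl hd s (X \ Y) + ff tl hd s (Y \ X)
      + 2 * ee tl hd (X ∩ Y) (X ∪ Y)ᶜ + 2 * yy tl hd s (X ∩ Y) := by
  have h1 := cr_sdiff (tl := tl) (hd := hd) X Y
  have h2 := yy_sdiff (tl := tl) (hd := hd) s X Y
  have h3 := yy_sdiff (tl := tl) (hd := hd) s Y X
  rw [inter_comm Y X] at h3
  unfold ff; linarith

theorem ff_add (s t : E → ℤ) (X : Finset V) :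
    ff tl hd (s + t) X = ff tl hd s X + yy tl hd t X := by
  unfold ff; rw [yy_add]; ring

theorem ff_compl (s : E → ℤ) (X : Finset V) :
    ff tl hd s Xᶜ = ff tl hd (-s) X := by
  unfold ff; rw [cr_compl, yy_compl, yy_neg]

theorem ff_zero (X : Finset V) : ff tl hd (0 : E → ℤ) X = cr tl hd X := by
  unfold ff; rw [yy_zero, add_zero]

theorem ff_empty (s : E → ℤ) : ff tl hd s (∅ : Finset V) = 0 := by
  unfold ff cr; rw [yy_empty]; simp [ind_empty]

theorem ff_univ (s : E → ℤ) : ff tl hd s (univ : Finset V) = 0 := by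
  unfold ff cr; rw [yy_univ]; simp [ind_univ]

/-- the contribution of one edge -/
def ct (s : E → ℤ) (X : Finset V) (e : E) : ℤ :=
  |ind X (hd e) - ind X (tl e)| + s e * (ind X (hd e) - ind X (tl e))

theorem ff_eq_sum (s : E → ℤ) (X : Finset V) :
    ff tl hd s X = ∑ e, ct (tl := tl) (hd := hd) s X e := by
  unfold ff cr yy ct; rw [← sum_add_distrib]

/-- values `-1, 0, 1` -/
def St (s : E → ℤ) : Prop := ∀ e, s e = -1 ∨ s e = 0 ∨ s e = 1

theorem ct_nonneg {s : E → ℤ} (hs : St s) (X : Finset V) (e : E) :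
    0 ≤ ct (tl := tl) (hd := hd) s X e := by
  unfold ct
  rcases ind_cases X (hd e) with h1 | h1 <;> rcases ind_cases X (tl e) with h2 | h2 <;>
    rcases hs e with h | h | h <;> simp [h1, h2, h]

theorem ff_nonneg {s : E → ℤ} (hs : St s) (X : Finset V) : 0 ≤ ff tl hd s X := by
  rw [ff_eq_sum]; exact sum_nonneg fun e _ => ct_nonneg hs X e

/-- `ff = 2 (entering decided edges) + (undecided crossing edges)` -/
theorem ff_eq_card [DecidableEq E] {s : E → ℤ} (hs : St s) (X : Finset V) :
    ff tl hd s X =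
      2 * ((univ.filter fun e => (s e = 1 ∧ hd e ∈ X ∧ tl e ∉ X) ∨
        (s e = -1 ∧ hd e ∉ X ∧ tl e ∈ X)).card : ℤ) +
      ((univ.filter fun e => s e = 0 ∧ ¬ (hd e ∈ X ↔ tl e ∈ X)).card : ℤ) := by
  rw [ff_eq_sum, card_filter, card_filter, Nat.cast_sum, Nat.cast_sum, mul_sum, ← sum_add_distrib]
  refine sum_congr rfl fun e _ => ?_
  unfold ct
  by_cases h1 : hd e ∈ X <;> by_cases h2 : tl e ∈ X <;>
    rcases hs e with h | h | h <;> simp [ind, h1, h2, h]

/-- parity: `ff` has the parity of the number of undecided crossing edges -/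
theorem ff_parity [DecidableEq E] {s : E → ℤ} (hs : St s) (X : Finset V) :
    Even (ff tl hd s X) ↔
      Even ((univ.filter fun e => s e = 0 ∧ ¬ (hd e ∈ X ↔ tl e ∈ X)).card) := by
  rw [ff_eq_card hs, Int.even_add]
  simp only [even_two, Even.mul_right, true_iff, Int.even_coe_nat]

/-- without undecided edges: `ff = 2 in` -/
theorem ff_full [DecidableEq E] {s : E → ℤ} (hs : ∀ e, s e = -1 ∨ s e = 1) (X : Finset V) :
    ff tl hd s X =
      2 * ((univ.filter fun e => (s e = 1 ∧ hd e ∈ X ∧ tl e ∉ X) ∨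
        (s e = -1 ∧ hd e ∉ X ∧ tl e ∈ X)).card : ℤ) := by
  rw [ff_eq_card (fun e => (hs e).imp id Or.inr), add_eq_left, Nat.cast_eq_zero, card_eq_zero,
    filter_eq_empty_iff]
  intro e _ h
  rcases hs e with h1 | h1 <;> rw [h1] at h <;> simp at h

end Calc

section Tight

variable {V E : Type*} [Fintype V] [DecidableEq V] [Fintype E] {tl hd : E → V}

/-- up-sets of a relation -/
def UpS (r : V → V → Prop) (X : Finset V) : Prop := ∀ u v, r u v → u ∈ X → v ∈ X

/-- down-sets of a relation -/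
def DnS (r : V → V → Prop) (X : Finset V) : Prop := ∀ u v, r u v → v ∈ X → u ∈ X

theorem UpS.inter {r : V → V → Prop} {X Y : Finset V} (h1 : UpS r X) (h2 : UpS r Y) :
    UpS r (X ∩ Y) := fun u v h h' => by
  rw [mem_inter] at h' ⊢; exact ⟨h1 u v h h'.1, h2 u v h h'.2⟩

theorem UpS.union {r : V → V → Prop} {X Y : Finset V} (h1 : UpS r X) (h2 : UpS r Y) :
    UpS r (X ∪ Y) := fun u v h h' => by
  rw [mem_union] at h' ⊢; exact h'.imp (h1 u v h) (h2 u v h)

theorem UpS.sdiff {r : V → V → Prop} {X Y : Finset V} (h1 : UpS r X) (h2 : DnS r Y) :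
    UpS r (X \ Y) := fun u v h h' => by
  rw [mem_sdiff] at h' ⊢; exact ⟨h1 u v h h'.1, fun h3 => h'.2 (h2 u v h h3)⟩

theorem DnS.inter {r : V → V → Prop} {X Y : Finset V} (h1 : DnS r X) (h2 : DnS r Y) :
    DnS r (X ∩ Y) := fun u v h h' => by
  rw [mem_inter] at h' ⊢; exact ⟨h1 u v h h'.1, h2 u v h h'.2⟩

theorem DnS.union {r : V → V → Prop} {X Y : Finset V} (h1 : DnS r X) (h2 : DnS r Y) :
    DnS r (X ∪ Y) := fun u v h h' => by
  rw [mem_union] at h' ⊢; exact h'.imp (h1 u v h) (h2 u v h)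

theorem DnS.sdiff {r : V → V → Prop} {X Y : Finset V} (h1 : DnS r X) (h2 : UpS r Y) :
    DnS r (X \ Y) := fun u v h h' => by
  rw [mem_sdiff] at h' ⊢; exact ⟨h1 u v h h'.1, fun h3 => h'.2 (h2 u v h h3)⟩

theorem UpS.compl {r : V → V → Prop} {X : Finset V} (h1 : UpS r X) : DnS r Xᶜ :=
  fun u v h h' => by rw [mem_compl] at h' ⊢; exact fun h3 => h' (h1 u v h h3)

theorem DnS.compl {r : V → V → Prop} {X : Finset V} (h1 : DnS r X) : UpS r Xᶜ :=
  fun u v h h' => by rw [mem_compl] at h' ⊢; exact fun h3 => h' (h1 u v h h3)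

/-- the family `F_0`: nonempty up-sets avoiding the root -/
def F0 (r : V → V → Prop) (rt : V) (X : Finset V) : Prop := X.Nonempty ∧ UpS r X ∧ rt ∉ X

/-- the family `F_1`: nonempty down-sets avoiding the root -/
def F1 (r : V → V → Prop) (rt : V) (X : Finset V) : Prop := X.Nonempty ∧ DnS r X ∧ rt ∉ X

/-- `F_1` is `F_0` of the reversed relation -/
theorem F1_iff_flip (r : V → V → Prop) (rt : V) (X : Finset V) :
    F1 r rt X ↔ F0 (fun u v => r v u) rt X :=
  ⟨fun h => ⟨h.1, fun u v h' h'' => h.2.1 v u h' h'', h.2.2⟩,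
    fun h => ⟨h.1, fun u v h' h'' => h.2.1 v u h' h'', h.2.2⟩⟩

theorem F0_iff_flip (r : V → V → Prop) (rt : V) (X : Finset V) :
    F0 r rt X ↔ F1 (fun u v => r v u) rt X :=
  ⟨fun h => ⟨h.1, fun u v h' h'' => h.2.1 v u h' h'', h.2.2⟩,
    fun h => ⟨h.1, fun u v h' h'' => h.2.1 v u h' h'', h.2.2⟩⟩

theorem F0.inter {r : V → V → Prop} {rt : V} {X Y : Finset V} (h1 : F0 r rt X) (h2 : F0 r rt Y)
    (h : (X ∩ Y).Nonempty) : F0 r rt (X ∩ Y) :=
  ⟨h, h1.2.1.inter h2.2.1, fun h' => h1.2.2 (mem_inter.1 h').1⟩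

theorem F0.union {r : V → V → Prop} {rt : V} {X Y : Finset V} (h1 : F0 r rt X) (h2 : F0 r rt Y) :
    F0 r rt (X ∪ Y) :=
  ⟨h1.1.mono subset_union_left, h1.2.1.union h2.2.1,
    fun h' => (mem_union.1 h').elim h1.2.2 h2.2.2⟩

theorem F0.sdiff {r : V → V → Prop} {rt : V} {X Y : Finset V} (h1 : F0 r rt X) (h2 : F1 r rt Y)
    (h : (X \ Y).Nonempty) : F0 r rt (X \ Y) :=
  ⟨h, h1.2.1.sdiff h2.2.1, fun h' => h1.2.2 (mem_sdiff.1 h').1⟩

theorem F1.inter {r : V → V → Prop} {rt : V} {X Y : Finset V} (h1 : F1 r rt X) (h2 : F1 r rt Y)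
    (h : (X ∩ Y).Nonempty) : F1 r rt (X ∩ Y) :=
  ⟨h, h1.2.1.inter h2.2.1, fun h' => h1.2.2 (mem_inter.1 h').1⟩

theorem F1.union {r : V → V → Prop} {rt : V} {X Y : Finset V} (h1 : F1 r rt X) (h2 : F1 r rt Y) :
    F1 r rt (X ∪ Y) :=
  ⟨h1.1.mono subset_union_left, h1.2.1.union h2.2.1,
    fun h' => (mem_union.1 h').elim h1.2.2 h2.2.2⟩

theorem F1.sdiff {r : V → V → Prop} {rt : V} {X Y : Finset V} (h1 : F1 r rt X) (h2 : F0 r rt Y)
    (h : (X \ Y).Nonempty) : F1 r rt (X \ Y) :=
  ⟨h, h1.2.1.sdiff h2.2.1, fun h' => h1.2.2 (mem_sdiff.1 h').1⟩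

/-- admissible states -/
def Adm (tl hd : E → V) (r : V → V → Prop) (rt : V) (m : ℤ) (s : E → ℤ) : Prop :=
  (∀ X, F0 r rt X → 2 * m ≤ ff tl hd s X) ∧ (∀ X, F1 r rt X → 2 * m ≤ ff tl hd s X)

theorem Adm.flip {r : V → V → Prop} {rt : V} {m : ℤ} {s : E → ℤ} (h : Adm tl hd r rt m s) :
    Adm tl hd (fun u v => r v u) rt m s :=
  ⟨fun X hX => h.2 X ((F1_iff_flip r rt X).2 hX), fun X hX => h.1 X ((F0_iff_flip r rt X).2 hX)⟩

/-- **same type**: two intersecting tight up-sets uncross -/
theorem tight_inter_union {r : V → V → Prop} {rt : V} {m : ℤ} {s : E → ℤ}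
    (h : Adm tl hd r rt m s) {X Y : Finset V} (hX : F0 r rt X) (hY : F0 r rt Y)
    (hXY : (X ∩ Y).Nonempty) (tX : ff tl hd s X = 2 * m) (tY : ff tl hd s Y = 2 * m) :
    ff tl hd s (X ∩ Y) = 2 * m ∧ ff tl hd s (X ∪ Y) = 2 * m ∧ ee tl hd (X \ Y) (Y \ X) = 0 := by
  have h1 := ff_inter_union (tl := tl) (hd := hd) s X Y
  have h2 := h.1 _ (hX.inter hY hXY)
  have h3 := h.1 _ (hX.union hY)
  have h4 := ee_nonneg (tl := tl) (hd := hd) (X \ Y) (Y \ X)
  refine ⟨by linarith, by linarith, by linarith⟩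

/-- same type, general excesses -/
theorem ex_inter_union {r : V → V → Prop} {rt : V} {m : ℤ} {s : E → ℤ}
    (h : Adm tl hd r rt m s) {X Y : Finset V} (hX : F0 r rt X) (hY : F0 r rt Y)
    (hXY : (X ∩ Y).Nonempty) :
    2 * m ≤ ff tl hd s (X ∩ Y) ∧ 2 * m ≤ ff tl hd s (X ∪ Y) ∧
      ff tl hd s (X ∩ Y) + ff tl hd s (X ∪ Y) + 2 * ee tl hd (X \ Y) (Y \ X)
        = ff tl hd s X + ff tl hd s Y :=
  ⟨h.1 _ (hX.inter hY hXY), h.1 _ (hX.union hY), (ff_inter_union s X Y).symm⟩

/-- **mixed type**: for a tight up-set `X` and a tight down-set `Y` neither containing the other,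
`ee C O + y C ≤ 0` where `C = X ∩ Y`, `O` the outside -/
theorem mixed_le {r : V → V → Prop} {rt : V} {m : ℤ} {s : E → ℤ}
    (h : Adm tl hd r rt m s) {X Y : Finset V} (hX : F0 r rt X) (hY : F1 r rt Y)
    (h1 : (X \ Y).Nonempty) (h2 : (Y \ X).Nonempty)
    (tX : ff tl hd s X = 2 * m) (tY : ff tl hd s Y = 2 * m) :
    ee tl hd (X ∩ Y) (X ∪ Y)ᶜ + yy tl hd s (X ∩ Y) ≤ 0 := by
  have h3 := ff_sdiff (tl := tl) (hd := hd) s X Y
  have h4 := h.1 _ (hX.sdiff hY h1)
  have h5 := h.2 _ (hY.sdiff hX h2)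
  linarith

/-- mixed type with `0 ≤ y C` (in particular without decided edges): both differences are tight
and there is no edge between `C` and the outside -/
theorem mixed_tight {r : V → V → Prop} {rt : V} {m : ℤ} {s : E → ℤ}
    (h : Adm tl hd r rt m s) {X Y : Finset V} (hX : F0 r rt X) (hY : F1 r rt Y)
    (h1 : (X \ Y).Nonempty) (h2 : (Y \ X).Nonempty)
    (tX : ff tl hd s X = 2 * m) (tY : ff tl hd s Y = 2 * m) (hC : 0 ≤ yy tl hd s (X ∩ Y)) :
    ff tl hd s (X \ Y) = 2 * m ∧ ff tl hd s (Y \ X) = 2 * m ∧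
      ee tl hd (X ∩ Y) (X ∪ Y)ᶜ = 0 ∧ yy tl hd s (X ∩ Y) = 0 := by
  have h3 := ff_sdiff (tl := tl) (hd := hd) s X Y
  have h4 := h.1 _ (hX.sdiff hY h1)
  have h5 := h.2 _ (hY.sdiff hX h2)
  have h6 := ee_nonneg (tl := tl) (hd := hd) (X ∩ Y) (X ∪ Y)ᶜ
  refine ⟨by linarith, by linarith, by linarith, by linarith⟩

/-- mixed type, general excesses -/
theorem ex_mixed {r : V → V → Prop} {rt : V} {m : ℤ} {s : E → ℤ}
    (h : Adm tl hd r rt m s) {X Y : Finset V} (hX : F0 r rt X) (hY : F1 r rt Y)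
    (h1 : (X \ Y).Nonempty) (h2 : (Y \ X).Nonempty) :
    2 * m ≤ ff tl hd s (X \ Y) ∧ 2 * m ≤ ff tl hd s (Y \ X) ∧
      ff tl hd s (X \ Y) + ff tl hd s (Y \ X) + 2 * ee tl hd (X ∩ Y) (X ∪ Y)ᶜ +
        2 * yy tl hd s (X ∩ Y) = ff tl hd s X + ff tl hd s Y :=
  ⟨h.1 _ (hX.sdiff hY h1), h.2 _ (hY.sdiff hX h2), (ff_sdiff s X Y).symm⟩

/-- `s + t` is admissible iff `y_t ≥ 2 m - ff s` on both families -/
theorem Adm_add_iff {r : V → V → Prop} {rt : V} {m : ℤ} {s t : E → ℤ} :
    Adm tl hd r rt m (s + t) ↔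
      (∀ X, F0 r rt X → 2 * m ≤ ff tl hd s X + yy tl hd t X) ∧
      (∀ X, F1 r rt X → 2 * m ≤ ff tl hd s X + yy tl hd t X) := by
  unfold Adm; simp only [ff_add]

/-- the zero state is admissible iff all up-sets and down-sets avoiding the root are crossed by at
least `2 m` edges -/
theorem Adm_zero_iff {r : V → V → Prop} {rt : V} {m : ℤ} :
    Adm tl hd r rt m (0 : E → ℤ) ↔
      (∀ X, F0 r rt X → 2 * m ≤ cr tl hd X) ∧ (∀ X, F1 r rt X → 2 * m ≤ cr tl hd X) := by
  unfold Adm; simp only [ff_zero]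

end Tight

end Pool.Agent.Lib.MP492a9eW
end

section
/-!
# Orientations with prescribed net inflow (Hakimi), helper47

`hakimi`: for a finite multigraph with edge ends `tl e`, `hd e` and `w : V → ℤ` with `w(V) = 0`,
`w v ≡ cr {v} (mod 2)` and `- cr X ≤ w(X)` for all `X`, there is `s : E → {1, -1}` with net inflow
`yy s X = w(X)` for all `X`.
-/
namespace Pool.Agent.Lib.MP492a9eW

open Finset

set_option linter.unusedSectionVars false

section Hakimi

variable {V E : Type*} [Fintype V] [DecidableEq V] [Fintype E] [DecidableEq E] {tl hd : E → V}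

/-- number of edge ends at `v` (loops count twice) -/
def dgr (tl hd : E → V) (v : V) : ℤ := ∑ e : E, (ind {v} (hd e) + ind {v} (tl e))

theorem sum_ind_single (X : Finset V) (u : V) : ∑ v ∈ X, ind {v} u = ind X u := by
  unfold ind
  by_cases h : u ∈ X
  · rw [sum_eq_single_of_mem u h]
    · simp [h]
    · intro b _ hb
      simp [Ne.symm hb]
  · rw [if_neg h]
    refine sum_eq_zero fun v hv => ?_
    rw [if_neg]
    intro h2
    rw [mem_singleton] at h2
    exact h (h2 ▸ hv)

/-- number of edges with both ends in `X` -/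
def ins (tl hd : E → V) (X : Finset V) : ℤ := ∑ e : E, ind X (hd e) * ind X (tl e)

theorem sum_dgr (X : Finset V) : ∑ v ∈ X, dgr tl hd v = 2 * ins tl hd X + cr tl hd X := by
  unfold dgr ins cr
  rw [sum_comm, mul_sum, ← sum_add_distrib]
  refine sum_congr rfl fun e _ => ?_
  rw [sum_add_distrib, sum_ind_single, sum_ind_single]
  rcases ind_cases X (hd e) with h1 | h1 <;> rcases ind_cases X (tl e) with h2 | h2 <;>
    simp [h1, h2]

theorem dgr_par (v : V) : ∃ k : ℤ, dgr tl hd v = cr tl hd {v} + 2 * k := by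
  have h := sum_dgr (tl := tl) (hd := hd) {v}
  rw [sum_singleton] at h
  exact ⟨ins tl hd {v}, by rw [h]; ring⟩

theorem yy_eq_sum (s : E → ℤ) (X : Finset V) :
    yy tl hd s X = ∑ v ∈ X, yy tl hd s {v} := by
  unfold yy
  rw [sum_comm]
  refine sum_congr rfl fun e _ => ?_
  rw [← mul_sum, sum_sub_distrib, sum_ind_single, sum_ind_single]

/-- **Hakimi's theorem.** -/
theorem hakimi (w : V → ℤ) (h0 : ∑ v, w v = 0) (hpar : ∀ v, ∃ k : ℤ, cr tl hd {v} = w v + 2 * k)
    (hcap : ∀ X : Finset V, - cr tl hd X ≤ ∑ v ∈ X, w v) :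
    ∃ s : E → ℤ, (∀ e, s e = 1 ∨ s e = -1) ∧ ∀ X, yy tl hd s X = ∑ v ∈ X, w v := by
  classical
  -- prescribed indegrees
  have hp : ∀ v, ∃ p : ℕ, 2 * (p : ℤ) = dgr tl hd v + w v := by
    intro v
    obtain ⟨k, hk⟩ := hpar v
    obtain ⟨l, hl⟩ := dgr_par (tl := tl) (hd := hd) v
    have h1 := hcap {v}
    rw [sum_singleton] at h1
    have h2 : 0 ≤ l := by
      have h := sum_dgr (tl := tl) (hd := hd) {v}
      rw [sum_singleton] at h
      have h3 : 0 ≤ ins tl hd {v} := sum_nonneg fun e _ => by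
        rcases ind_cases {v} (hd e) with h1 | h1 <;> rcases ind_cases {v} (tl e) with h2 | h2 <;>
          simp [h1, h2]
      omega
    refine ⟨(k + l + w v).toNat, ?_⟩
    rw [Int.toNat_of_nonneg (by omega)]
    omega
  choose p hp using hp
  let t : E → Finset (Σ v : V, Fin (p v)) := fun e => univ.filter fun x => x.1 = hd e ∨ x.1 = tl e
  have hall : ∀ s : Finset E, s.card ≤ (s.biUnion t).card := by
    intro s
    let S : Finset V := s.image hd ∪ s.image tl
    have h1 : (univ.filter fun x : (Σ v : V, Fin (p v)) => x.1 ∈ S) ⊆ s.biUnion t := by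
      intro x hx
      rw [mem_filter] at hx
      rw [mem_biUnion]
      rcases mem_union.1 hx.2 with h | h
      · obtain ⟨e, he, h⟩ := mem_image.1 h
        exact ⟨e, he, by simp [t, h]⟩
      · obtain ⟨e, he, h⟩ := mem_image.1 h
        exact ⟨e, he, by simp [t, h]⟩
    have h2 : ((univ.filter fun x : (Σ v : V, Fin (p v)) => x.1 ∈ S).card : ℤ) = ∑ v ∈ S, (p v : ℤ) := by
      have : (univ.filter fun x : (Σ v : V, Fin (p v)) => x.1 ∈ S)
          = S.sigma fun v => (univ : Finset (Fin (p v))) := by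
        ext x
        simp
      rw [this, card_sigma]
      simp
    have h3 : (s.card : ℤ) ≤ ins tl hd S := by
      have : (s.card : ℤ) = ∑ e ∈ s, (1 : ℤ) := by simp
      rw [this]
      unfold ins
      calc ∑ e ∈ s, (1 : ℤ) = ∑ e ∈ s, ind S (hd e) * ind S (tl e) := by
            refine sum_congr rfl fun e he => ?_
            rw [ind_mem (mem_union_left _ (mem_image_of_mem hd he)),
              ind_mem (mem_union_right _ (mem_image_of_mem tl he))]
            simp
        _ ≤ ∑ e, ind S (hd e) * ind S (tl e) := by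
            refine sum_le_sum_of_subset_of_nonneg (subset_univ _) fun e _ _ => ?_
            rcases ind_cases S (hd e) with h1 | h1 <;> rcases ind_cases S (tl e) with h2 | h2 <;>
              simp [h1, h2]
    have h4 : 2 * ∑ v ∈ S, (p v : ℤ) = 2 * ins tl hd S + cr tl hd S + ∑ v ∈ S, w v := by
      rw [← sum_dgr, ← sum_add_distrib, mul_sum]
      exact sum_congr rfl fun v _ => hp v
    have h5 := hcap S
    have h6 := card_le_card h1
    have h7 : (s.card : ℤ) ≤ ((s.biUnion t).card : ℤ) := by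
      calc (s.card : ℤ) ≤ ins tl hd S := h3
        _ ≤ ∑ v ∈ S, (p v : ℤ) := by omega
        _ = ((univ.filter fun x : (Σ v : V, Fin (p v)) => x.1 ∈ S).card : ℤ) := h2.symm
        _ ≤ _ := by exact_mod_cast h6
    exact_mod_cast h7
  obtain ⟨f, hf, hft⟩ := (all_card_le_biUnion_card_iff_exists_injective t).1 hall
  -- `f` is bijective
  have hcard : Fintype.card E = Fintype.card (Σ v : V, Fin (p v)) := by
    have h2 : ((Fintype.card (Σ v : V, Fin (p v)) : ℕ) : ℤ) = ∑ v, (p v : ℤ) := by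
      rw [Fintype.card_sigma]
      simp
    have h4 : 2 * ∑ v, (p v : ℤ) = 2 * ins tl hd univ + cr tl hd univ + ∑ v, w v := by
      rw [← sum_dgr, ← sum_add_distrib, mul_sum]
      exact sum_congr rfl fun v _ => hp v
    have h5 : ins tl hd univ = (Fintype.card E : ℤ) := by
      unfold ins
      simp [ind_univ]
    have h6 : cr tl hd (univ : Finset V) = 0 := by
      unfold cr
      simp [ind_univ]
    have : ((Fintype.card E : ℕ) : ℤ) = (Fintype.card (Σ v : V, Fin (p v)) : ℕ) := by
      rw [h2]; omega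
    exact_mod_cast this
  have hbij : Function.Bijective f := (Fintype.bijective_iff_injective_and_card f).2 ⟨hf, hcard⟩
  let s : E → ℤ := fun e => if (f e).1 = hd e then 1 else -1
  have hfe : ∀ e, (f e).1 = hd e ∨ (f e).1 = tl e := fun e => by
    have := hft e
    simpa [t] using this
  -- net inflow at a vertex
  have hv : ∀ v, yy tl hd s {v} = w v := by
    intro v
    have h1 : ∀ e, s e * (ind {v} (hd e) - ind {v} (tl e))
        = 2 * ind {v} (f e).1 - (ind {v} (hd e) + ind {v} (tl e)) := by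
      intro e
      by_cases h : (f e).1 = hd e
      · simp only [s, if_pos h]
        rw [h]; ring
      · have h' : (f e).1 = tl e := (hfe e).resolve_left h
        simp only [s, if_neg h]
        rw [h']; ring
    have h2 : ∑ e, ind {v} (f e).1 = (p v : ℤ) := by
      have h3 : ∑ e, ind {v} (f e).1 = ∑ x : (Σ v : V, Fin (p v)), ind {v} x.1 :=
        hbij.sum_comp (fun x : (Σ v : V, Fin (p v)) => ind {v} x.1)
      rw [h3]
      rw [Fintype.sum_sigma]
      simp only [sum_const, card_univ, Fintype.card_fin]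
      rw [sum_eq_single_of_mem v (mem_univ v)]
      · simp [ind]
      · intro b _ hb
        simp [ind, hb]
    unfold yy
    rw [sum_congr rfl fun e _ => h1 e, sum_sub_distrib, ← mul_sum, h2, hp v]
    unfold dgr
    ring
  refine ⟨s, fun e => ?_, fun X => ?_⟩
  · by_cases h : (f e).1 = hd e
    · left; simp [s, h]
    · right; simp [s, h]
  · rw [yy_eq_sum]
    exact sum_congr rfl fun v _ => hv v

end Hakimi

end Pool.Agent.Lib.MP492a9eW
end
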