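import Pool.Agent.Lib.MP_492a9e_co.Two.Main
import Pool.Agent.Lib.MP_492a9e_co.Pen.Final
import Pool.Agent.Lib.MP_492a9e_co.W.Hakimi

section
/-!
# Packing dijoins from a two-coloured arc set with flexible roots (helper3)

`flex`: red arcs pack, for each root `rt i`, sets which enter all up-sets avoiding `rt i`; blue arcs
pack sets which enter all up-sets containing `rt i`.  `one_root`: all roots equal.
`digraph_of_preorder`: from preorders to digraphs and their directed cuts.
-/
open Finset Wood2 Wood3

namespace WoodW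

set_option linter.unusedSectionVars false

section Flex

variable {V A : Type} [Fintype V] [DecidableEq V] [Fintype A] [DecidableEq A]

/-- **flexible roots**: if the red arcs (`c e`) enter every nonempty up-set `U` at least as often as
there are roots outside `U`, and the blue arcs leave every nonempty down-set `W` at least as often
as there are roots outside `W`, then there are `m` disjoint dijoins. -/
theorem flex {r : V → V → Prop} (hrefl : ∀ v, r v v) (htr : ∀ u v w, r u v → r v w → r u w)
    {tl hd : A → V} {S : Finset A} (hS : ∀ e ∈ S, r (tl e) (hd e)) {m : ℕ} (hm : 0 < m)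
    (rt : Fin m → V) (c : A → Prop) [DecidablePred c]
    (h0 : ∀ U : Finset V, U.Nonempty → Up r U → (univ.filter fun i => rt i ∉ U).card ≤
      (S.filter fun e => c e ∧ tl e ∉ U ∧ hd e ∈ U).card)
    (h1 : ∀ W : Finset V, W.Nonempty → Dn r W → (univ.filter fun i => rt i ∉ W).card ≤
      (S.filter fun e => ¬ c e ∧ tl e ∈ W ∧ hd e ∉ W).card) :
    ∃ f : A → Fin m, Pk r tl hd S m f := by
  classical
  haveI : Nonempty (Fin m) := ⟨⟨0, hm⟩⟩
  -- red
  obtain ⟨f1, hf1⟩ := edmonds (C := Fin m) hrefl htr (Rt := ∅) (tl := tl) (hd := hd) _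
    (S.filter c) (fun i => univ.filter fun v => r v (rt i)) rfl
    (fun e he => hS e (mem_filter.1 he).1)
    (by
      intro i u hu v hvu
      rw [mem_filter] at hu ⊢
      exact ⟨mem_univ _, htr _ _ _ hvu hu.2⟩)
    (fun i => empty_subset _)
    (by
      intro U hU
      have h2 := h0 U hU.1 hU.2.1
      refine le_trans (le_trans (card_le_card ?_) h2) (card_le_card ?_)
      · intro i hi
        rw [mem_filter] at hi ⊢
        exact ⟨mem_univ _, fun h3 => Finset.disjoint_left.1 hi.2 h3
          (mem_filter.2 ⟨mem_univ _, hrefl _⟩)⟩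
      · intro e he
        rw [mem_filter] at he
        rw [mem_ent, mem_filter]
        exact ⟨⟨he.1, he.2.1⟩, he.2.2⟩)
  -- blue
  obtain ⟨f2, hf2⟩ := edmonds (C := Fin m) (r := fun x y => r y x) hrefl
    (fun u v w h h' => htr _ _ _ h' h) (Rt := ∅) (tl := hd) (hd := tl) _
    (S.filter fun e => ¬ c e) (fun i => univ.filter fun v => r (rt i) v) rfl
    (fun e he => hS e (mem_filter.1 he).1)
    (by
      intro i u hu v hvu
      rw [mem_filter] at hu ⊢
      exact ⟨mem_univ _, htr _ _ _ hu.2 hvu⟩)
    (fun i => empty_subset _)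
    (by
      intro U hU
      have h2 := h1 U hU.1 hU.2.1
      refine le_trans (le_trans (card_le_card ?_) h2) (card_le_card ?_)
      · intro i hi
        rw [mem_filter] at hi ⊢
        exact ⟨mem_univ _, fun h3 => Finset.disjoint_left.1 hi.2 h3
          (mem_filter.2 ⟨mem_univ _, hrefl _⟩)⟩
      · intro e he
        rw [mem_filter] at he
        rw [mem_ent, mem_filter]
        exact ⟨⟨he.1, he.2.1⟩, he.2.2.2, he.2.2.1⟩)
  refine ⟨fun e => if c e then f1 e else f2 e, fun i U hU => ?_⟩
  by_cases hi : rt i ∈ U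
  · obtain ⟨e, he, h2, h3, h4⟩ := hf2 i Uᶜ ⟨by
        rw [nonempty_iff_ne_empty]
        intro h
        exact hU.2.1 (compl_eq_empty_iff _ |>.1 h), by
        intro u hu v hvu
        rw [mem_compl] at hu ⊢
        exact fun hv => hu (hU.2.2 v hv u hvu), disjoint_empty_right _⟩ (by
        rw [Finset.disjoint_left]
        intro v hv hv'
        rw [mem_filter] at hv'
        exact (mem_compl.1 hv) (hU.2.2 _ hi _ hv'.2))
    rw [mem_filter] at he
    rw [mem_compl] at h3 h4
    exact ⟨e, he.1, (if_neg he.2).trans h2, h4, not_not.1 h3⟩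
  · obtain ⟨e, he, h2, h3, h4⟩ := hf1 i U ⟨hU.1, hU.2.2, disjoint_empty_right _⟩ (by
        rw [Finset.disjoint_left]
        intro v hv hv'
        rw [mem_filter] at hv'
        exact hi (hU.2.2 _ hv _ hv'.2))
    rw [mem_filter] at he
    exact ⟨e, he.1, (if_pos he.2).trans h2, h3, h4⟩

/-- one root -/
theorem one_root {r : V → V → Prop} (hrefl : ∀ v, r v v) (htr : ∀ u v w, r u v → r v w → r u w)
    {tl hd : A → V} {S : Finset A} (hS : ∀ e ∈ S, r (tl e) (hd e)) {m : ℕ} (hm : 0 < m)
    (v0 : V) (c : A → Prop) [DecidablePred c]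
    (h0 : ∀ U : Finset V, U.Nonempty → Up r U → v0 ∉ U →
      m ≤ (S.filter fun e => c e ∧ tl e ∉ U ∧ hd e ∈ U).card)
    (h1 : ∀ W : Finset V, W.Nonempty → Dn r W → v0 ∉ W →
      m ≤ (S.filter fun e => ¬ c e ∧ tl e ∈ W ∧ hd e ∉ W).card) :
    ∃ f : A → Fin m, Pk r tl hd S m f := by
  classical
  refine flex hrefl htr hS hm (fun _ => v0) c (fun U hU hU' => ?_) (fun W hW hW' => ?_)
  · by_cases h : v0 ∈ U
    · simp [h]
    · simpa [h] using h0 U hU hU' h
  · by_cases h : v0 ∈ W
    · simp [h]
    · simpa [h] using h1 W hW hW' h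

end Flex

/-- from preorders to digraphs -/
theorem digraph_of_preorder {V A : Type} [Fintype V] [Fintype A] (tl hd : A → V) (S : Set A)
    (k m : ℕ)
    (H : ∀ [DecidableEq V] [DecidableEq A] (r : V → V → Prop) (S : Finset A), (∀ v, r v v) →
      (∀ u v w, r u v → r v w → r u w) → (∀ e ∈ S, r (tl e) (hd e)) →
      (∀ U, Cut r U → k ≤ (ent tl hd S U).card) → ∃ f : A → Fin m, Pk r tl hd S m f)
    (hcut : ∀ U : Set V, (∀ a, tl a ∈ U → hd a ∈ U) → (∃ a, tl a ∉ U ∧ hd a ∈ U) →
      k ≤ {a ∈ S | tl a ∉ U ∧ hd a ∈ U}.ncard) :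
    ∃ J : Fin m → Set A, (∀ i, J i ⊆ S) ∧ (∀ i j, i ≠ j → Disjoint (J i) (J j)) ∧
      ∀ i, ∀ U : Set V, (∀ a, tl a ∈ U → hd a ∈ U) → (∃ a, tl a ∉ U ∧ hd a ∈ U) →
        ∃ a ∈ J i, tl a ∉ U ∧ hd a ∈ U := by
  classical
  rcases Nat.eq_zero_or_pos m with rfl | hk
  · exact ⟨fun _ => ∅, fun i => i.elim0, fun i => i.elim0, fun i => i.elim0⟩
  have hrefl : ∀ v, Re tl hd v v := fun v => Relation.ReflTransGen.refl
  have htr : ∀ u v w, Re tl hd u v → Re tl hd v w → Re tl hd u w :=
    fun u v w h h' => Relation.ReflTransGen.trans h h'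
  have harc : ∀ a, Re tl hd (tl a) (hd a) := fun a => Relation.ReflTransGen.single ⟨a, rfl, rfl⟩
  let π : V → V → V := fun c v => if Cn tl hd c v then v else c
  have hπc : ∀ c v, Cn tl hd c (π c v) := by
    intro c v
    by_cases h : Cn tl hd c v
    · simpa only [π, if_pos h] using h
    · simp only [π, if_neg h]
      exact Relation.ReflTransGen.refl
  have hπ : ∀ c v, Cn tl hd c v → π c v = v := fun c v h => if_pos h
  let R : V → V → V → Prop := fun c x y => Re tl hd (π c x) (π c y)
  let T : V → Finset A := fun c => univ.filter fun a => a ∈ S ∧ Cn tl hd c (tl a)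
  have hup : ∀ c x y, Cn tl hd c x → Re tl hd x y → Cn tl hd c y := fun c x y h1 h2 => h1.trans h2.cn
  have hdn : ∀ c x y, Cn tl hd c x → Re tl hd y x → Cn tl hd c y :=
    fun c x y h1 h2 => h1.trans h2.cn.symm
  have hF : ∀ c, ∃ f : A → Fin m, Pk (R c) tl hd (T c) m f := by
    intro c
    refine H (R c) (T c) (fun v => hrefl _) (fun u v w => htr _ _ _) ?_ ?_
    · intro e he
      obtain ⟨-, -, h1⟩ := mem_filter.1 he
      change Re tl hd (π c (tl e)) (π c (hd e))
      rw [hπ c _ h1, hπ c _ (hup c _ _ h1 (harc e))]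
      exact harc e
    · intro U hU
      have hmem : ∀ v, v ∈ U ↔ π c v ∈ U := by
        intro v
        have h1 : π c (π c v) = π c v := hπ c _ (hπc c v)
        constructor
        · intro hv
          refine hU.2.2 v hv (π c v) ?_
          change Re tl hd (π c v) (π c (π c v))
          rw [h1]; exact hrefl _
        · intro hv
          refine hU.2.2 _ hv v ?_
          change Re tl hd (π c (π c v)) (π c v)
          rw [h1]; exact hrefl _
      let X : Set V := {v | Cn tl hd c v ∧ v ∈ U}
      have hX : ∀ a, tl a ∈ X → hd a ∈ X := by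
        rintro a ⟨h1, h2⟩
        have h3 := hup c _ _ h1 (harc a)
        refine ⟨h3, hU.2.2 _ h2 _ ?_⟩
        change Re tl hd (π c (tl a)) (π c (hd a))
        rw [hπ c _ h1, hπ c _ h3]
        exact harc a
      have hne : ∃ a, tl a ∉ X ∧ hd a ∈ X := by
        obtain ⟨u, hu⟩ := hU.1
        obtain ⟨v, hv⟩ : ∃ v, v ∉ U := by
          by_contra hn
          push Not at hn
          exact hU.2.1 (eq_univ_iff_forall.2 hn)
        rw [hmem] at hu hv
        rcases exists_cross (X := X) ((hπc c u).symm.trans (hπc c v)) ⟨hπc c u, hu⟩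
          (fun h => hv h.2) with ⟨a, h1, h2⟩ | h1
        · exact absurd (hX a h1) h2
        · exact h1
      refine (hcut X hX hne).trans ?_
      have hsub : {a ∈ S | tl a ∉ X ∧ hd a ∈ X} ⊆ (ent tl hd (T c) U : Set A) := by
        rintro a ⟨h1, h2, h3, h4⟩
        have h5 : Cn tl hd c (tl a) := hdn c _ _ h3 (harc a)
        rw [mem_coe, mem_ent]
        exact ⟨mem_filter.2 ⟨mem_univ _, h1, h5⟩, fun h6 => h2 ⟨h5, h6⟩, h4⟩
      have := Set.ncard_le_ncard hsub (Finset.finite_toSet _)
      rwa [Set.ncard_coe_finset] at this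
  choose F hF using hF
  let s : Setoid V := ⟨Cn tl hd, fun _ => Relation.ReflTransGen.refl, fun h => h.symm,
    fun h h' => h.trans h'⟩
  let rep : V → V := fun v => (Quotient.mk s v).out
  have hrep : ∀ v, Cn tl hd (rep v) v := fun v => Quotient.exact (Quotient.out_eq (Quotient.mk s v))
  have hrep2 : ∀ u v, Cn tl hd u v → rep u = rep v := by
    intro u v h
    have : Quotient.mk s u = Quotient.mk s v := Quotient.sound h
    simp only [rep, this]
  let f : A → Fin m := fun a => F (rep (tl a)) a
  refine ⟨fun i => {a | a ∈ S ∧ f a = i}, fun i a ha => ha.1, ?_, ?_⟩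
  · intro i j hij
    rw [Set.disjoint_left]
    rintro a ⟨_, h1⟩ ⟨_, h3⟩
    exact hij (h1.symm.trans h3)
  · rintro i U hU ⟨a0, h1, h2⟩
    have hcr : ∀ u ∈ U, ∀ v, Re tl hd u v → v ∈ U := by
      intro u hu v h
      induction h with
      | refl => exact hu
      | tail _ hs ih =>
        obtain ⟨a, h3, h4⟩ := hs
        rw [← h4]
        exact hU a (h3 ▸ ih)
    set c := rep (tl a0) with hc
    have hc0 : Cn tl hd c (tl a0) := hrep _
    have hc1 : Cn tl hd c (hd a0) := hc0.trans (harc a0).cn
    obtain ⟨e, he, h3, h4, h5⟩ := hF c i (univ.filter fun v => π c v ∈ U) ⟨⟨hd a0, by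
        rw [mem_filter, hπ c _ hc1]
        exact ⟨mem_univ _, h2⟩⟩, fun h6 => by
        have h7 : tl a0 ∈ univ.filter fun v => π c v ∈ U := by rw [h6]; exact mem_univ _
        rw [mem_filter, hπ c _ hc0] at h7
        exact h1 h7.2, by
        intro u hu v huv
        rw [mem_filter] at hu ⊢
        exact ⟨mem_univ _, hcr _ hu.2 _ huv⟩⟩
    obtain ⟨-, h6, h7⟩ := mem_filter.1 he
    rw [mem_filter, hπ c _ h7] at h4
    rw [mem_filter, hπ c _ (h7.trans (harc e).cn)] at h5
    refine ⟨e, ⟨h6, ?_⟩, fun h8 => h4 ⟨mem_univ _, h8⟩, h5.2⟩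
    change F (rep (tl e)) e = i
    have h8 : rep (tl e) = c := by
      rw [hc]
      exact hrep2 _ _ (h7.symm.trans hc0)
    rw [h8]
    exact h3

end WoodW
end

section
/-!
# Packing dijoins by Eulerian completion

`completion`: add auxiliary edges `B` between vertices and `2 m` edges from a new vertex to the
vertices `z i`, such that all degrees are even. If every up-set and every down-set `U` satisfies
`2 m + (auxiliary edges separated by U) ≤ (arcs of S separated by U) + (number of i with z i ∈ U)`
then `S` contains `m` disjoint dijoins.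
-/
open Finset Wood2 Wood3

namespace WoodW

set_option linter.unusedSectionVars false

variable {V A B : Type} [Fintype V] [DecidableEq V] [Fintype A] [DecidableEq A] [Fintype B]
  [DecidableEq B]

/-- the auxiliary edges separated by `U` -/
def sp (p q : B → V) (U : Finset V) : Finset B :=
  univ.filter fun b => ¬ (p b ∈ U ↔ q b ∈ U)

/-- indicator of membership -/
def im (a : V) (U : Finset V) : ℤ := if a ∈ U then 1 else 0

theorem sum_ind_mem (U : Finset V) (a : V) : ∑ v ∈ U, ind a v = im a U := by
  unfold ind im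
  rw [sum_ite_eq]

theorem sp_bound (p q : B → V) (U : Finset V) (σ : B → ℤ) (hσ : ∀ b, σ b = 1 ∨ σ b = -1) :
    |∑ b, σ b * (im (q b) U - im (p b) U)| ≤ (sp p q U).card := by
  refine (abs_sum_le_sum_abs _ _).trans ?_
  rw [sp, card_filter]
  push_cast
  refine sum_le_sum fun b _ => ?_
  unfold im
  rcases hσ b with h | h <;> by_cases h1 : p b ∈ U <;> by_cases h2 : q b ∈ U <;>
    simp [h, h1, h2]

theorem im_some (a : V) (U : Finset V) : ∑ v ∈ U, ind (some a) (some v) = im a U := by
  rw [← sum_ind_mem]
  refine sum_congr rfl fun v _ => ?_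
  unfold ind
  simp

theorem ind_none_some (v : V) : ind (none : Option V) (some v) = 0 := ind_ne (by simp)

theorem ind_some_none (v : V) : ind (some v : Option V) none = 0 := ind_ne (by simp)

/-- the orientation of the completed graph, in the form of its cut equations -/
theorem orient (tl hd : A → V) (S : Finset A) (m : ℕ) (p q : B → V) (z : Fin (2 * m) → V)
    (heven : ∀ v, Even ((S.filter fun e => tl e = v).card + (S.filter fun e => hd e = v).card +
      ((univ.filter fun b => p b = v).card + (univ.filter fun b => q b = v).card) +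
      (univ.filter fun i => z i = v).card)) :
    ∃ (α : A → ℤ) (β : B → ℤ) (γ : Fin (2 * m) → ℤ), (∀ e, α e = 1 ∨ α e = -1) ∧
      (∀ e, β e = 1 ∨ β e = -1) ∧ (∀ e, γ e = 1 ∨ γ e = -1) ∧ ∑ i, γ i = 0 ∧
      ∀ U : Finset V, ∑ e ∈ S, α e * (im (hd e) U - im (tl e) U) +
        ∑ b, β b * (im (q b) U - im (p b) U) + ∑ i, γ i * im (z i) U = 0 := by
  classical
  have hcard : ∀ {X : Type} (T : Finset X) (f : X → V) (v : V),
      ∑ x ∈ T, ind (some (f x) : Option V) (some v) = ((T.filter fun x => f x = v).card : ℤ) := by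
    intro X T f v
    rw [card_filter]
    push_cast
    refine sum_congr rfl fun x _ => ?_
    unfold ind
    simp
  obtain ⟨σ, h1, h2⟩ := euler _ (S.disjSum ((univ : Finset B).disjSum (univ : Finset (Fin (2 * m)))))
    (Sum.elim (fun e => some (tl e)) (Sum.elim (fun b => some (p b)) fun _ => (none : Option V)))
    (Sum.elim (fun e => some (hd e)) (Sum.elim (fun b => some (q b)) fun i => some (z i))) rfl (by
      intro v
      rw [sum_disjSum, sum_disjSum]
      simp only [Sum.elim_inl, Sum.elim_inr]
      cases v with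
      | none =>
        simp only [ind_some_none, ind_self, sum_const_zero, add_zero, zero_add, sum_const,
          card_univ, Fintype.card_fin, nsmul_eq_mul, mul_one]
        exact ⟨(m : ℤ), by push_cast; ring⟩
      | some v =>
        simp only [ind_none_some, zero_add]
        rw [sum_add_distrib, sum_add_distrib, hcard, hcard, hcard, hcard, hcard]
        have h3 := heven v
        rw [← Int.even_coe_nat] at h3
        push_cast at h3
        rw [← add_assoc]
        exact h3)
  refine ⟨fun e => σ (Sum.inl e), fun b => σ (Sum.inr (Sum.inl b)), fun i => σ (Sum.inr (Sum.inr i)),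
    fun e => h1 _, fun e => h1 _, fun e => h1 _, ?_, ?_⟩
  · have h3 := h2 none
    rw [sum_disjSum, sum_disjSum] at h3
    simp only [Sum.elim_inl, Sum.elim_inr, ind_some_none, ind_self, sub_zero, mul_zero,
      sum_const_zero, zero_add, zero_sub, mul_neg, mul_one, sum_neg_distrib, neg_eq_zero] at h3
    exact h3
  · intro U
    have h3 : ∑ v ∈ U, (∑ e ∈ S.disjSum ((univ : Finset B).disjSum
        (univ : Finset (Fin (2 * m)))), σ e * (ind ((Sum.elim (fun e => some (hd e))
        (Sum.elim (fun b => some (q b)) fun i => some (z i))) e) (some v) -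
        ind ((Sum.elim (fun e => some (tl e)) (Sum.elim (fun b => some (p b))
        fun _ => (none : Option V))) e) (some v))) = 0 := sum_eq_zero fun v _ => h2 (some v)
    rw [sum_comm, sum_disjSum, sum_disjSum] at h3
    simp only [Sum.elim_inl, Sum.elim_inr, ← mul_sum, sum_sub_distrib, im_some, ind_none_some,
      sum_const_zero, sub_zero] at h3
    rw [add_assoc]
    exact h3

/-- **Eulerian completion** -/
theorem completion {r : V → V → Prop} (hrefl : ∀ v, r v v)
    (htr : ∀ u v w, r u v → r v w → r u w) {tl hd : A → V} {S : Finset A}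
    (hS : ∀ e ∈ S, r (tl e) (hd e)) {m : ℕ} (hm : 0 < m) (p q : B → V) (z : Fin (2 * m) → V)
    (heven : ∀ v, Even ((S.filter fun e => tl e = v).card + (S.filter fun e => hd e = v).card +
      ((univ.filter fun b => p b = v).card + (univ.filter fun b => q b = v).card) +
      (univ.filter fun i => z i = v).card))
    (hU : ∀ U : Finset V, U.Nonempty → Up r U → 2 * m + (sp p q U).card ≤
      (S.filter fun e => tl e ∉ U ∧ hd e ∈ U).card + (univ.filter fun i => z i ∈ U).card)
    (hW : ∀ U : Finset V, U.Nonempty → Dn r U → 2 * m + (sp p q U).card ≤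
      (S.filter fun e => tl e ∈ U ∧ hd e ∉ U).card + (univ.filter fun i => z i ∈ U).card) :
    ∃ f : A → Fin m, Pk r tl hd S m f := by
  classical
  obtain ⟨α, β, γ, ha, hb, hg, h0, hcut⟩ := orient tl hd S m p q z heven
  have hg' : ∀ i, γ i = if γ i = 1 then 1 else -1 := by
    intro i
    rcases hg i with h | h <;> rw [h] <;> norm_num
  -- roots
  have hI : (univ.filter fun i => γ i = 1).card = m := by
    have h1 : (∑ i : Fin (2 * m), (if γ i = 1 then (1 : ℤ) else -1)) = 0 := by
      rw [← h0]
      exact sum_congr rfl fun i _ => (hg' i).symm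
    have h2 : ∀ i : Fin (2 * m), (if γ i = 1 then (1 : ℤ) else -1) =
        2 * (if γ i = 1 then 1 else 0) - 1 := by
      intro i; split_ifs <;> norm_num
    simp only [h2, sum_sub_distrib, ← mul_sum, sum_const, card_univ, Fintype.card_fin,
      nsmul_eq_mul, mul_one] at h1
    have h3 : ((univ.filter fun i => γ i = 1).card : ℤ) =
        ∑ i : Fin (2 * m), (if γ i = 1 then (1 : ℤ) else 0) := by
      rw [card_filter]; push_cast; rfl
    push_cast at h1
    omega
  set I : Finset (Fin (2 * m)) := univ.filter fun i => γ i = 1 with hIdef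
  have hroots : ∀ P : V → Prop, [DecidablePred P] →
      (univ.filter fun j : Fin m => P (z (I.orderEmbOfFin hI j))).card =
      (I.filter fun i => P (z i)).card := by
    intro P _
    refine card_bij (fun j _ => I.orderEmbOfFin hI j) ?_ ?_ ?_
    · intro j hj
      rw [mem_filter] at hj ⊢
      exact ⟨I.orderEmbOfFin_mem hI j, hj.2⟩
    · intro a _ b _ hab
      exact (I.orderEmbOfFin hI).injective hab
    · intro i hi
      rw [mem_filter] at hi
      have h1 : i ∈ Set.range (I.orderEmbOfFin hI) := by
        rw [I.range_orderEmbOfFin hI]; exact hi.1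
      obtain ⟨j, rfl⟩ := h1
      exact ⟨j, mem_filter.2 ⟨mem_univ _, hi.2⟩, rfl⟩
  -- the counting identity
  have hcount : ∀ U : Finset V, ∑ i, γ i * im (z i) U =
      2 * ((I.filter fun i => z i ∈ U).card : ℤ) - ((univ.filter fun i => z i ∈ U).card : ℤ) := by
    intro U
    rw [hIdef, filter_filter, card_filter, card_filter]
    push_cast
    rw [mul_sum, ← sum_sub_distrib]
    refine sum_congr rfl fun i _ => ?_
    unfold im
    rcases hg i with h | h <;> by_cases h1 : z i ∈ U <;> simp [h, h1] <;> norm_num
  have hIm : ∀ U : Finset V, ((I.filter fun i => z i ∈ U).card : ℤ) +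
      ((I.filter fun i => z i ∉ U).card : ℤ) = m := by
    intro U
    have h1 := Finset.card_filter_add_card_filter_not (s := I) (fun i => z i ∈ U)
    rw [hI] at h1
    exact_mod_cast h1
  refine flex hrefl htr hS hm (fun j => z (I.orderEmbOfFin hI j)) (fun e => α e = 1)
    (fun U hU1 hU2 => ?_) (fun U hU1 hU2 => ?_)
  · rw [hroots fun v => v ∉ U]
    have h1 := hcut U
    have h2 := hU U hU1 hU2
    have h3 := abs_le.1 (sp_bound p q U β hb)
    have h4 := hcount U
    have h5 := hIm U
    have h6 : ∑ e ∈ S, α e * (im (hd e) U - im (tl e) U) =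
        2 * ((S.filter fun e => α e = 1 ∧ tl e ∉ U ∧ hd e ∈ U).card : ℤ) -
        ((S.filter fun e => tl e ∉ U ∧ hd e ∈ U).card : ℤ) := by
      rw [card_filter, card_filter]
      push_cast
      rw [mul_sum, ← sum_sub_distrib]
      refine sum_congr rfl fun e he => ?_
      unfold im
      by_cases h8 : tl e ∈ U
      · have h9 : hd e ∈ U := hU2 _ h8 _ (hS e he)
        simp [h8, h9]
      · rcases ha e with h | h <;> by_cases h9 : hd e ∈ U <;> simp [h, h8, h9] <;> norm_num
    omega
  · rw [hroots fun v => v ∉ U]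
    have h1 := hcut U
    have h2 := hW U hU1 hU2
    have h3 := abs_le.1 (sp_bound p q U β hb)
    have h4 := hcount U
    have h5 := hIm U
    have h6 : ∑ e ∈ S, α e * (im (hd e) U - im (tl e) U) =
        2 * ((S.filter fun e => ¬ α e = 1 ∧ tl e ∈ U ∧ hd e ∉ U).card : ℤ) -
        ((S.filter fun e => tl e ∈ U ∧ hd e ∉ U).card : ℤ) := by
      rw [card_filter, card_filter]
      push_cast
      rw [mul_sum, ← sum_sub_distrib]
      refine sum_congr rfl fun e he => ?_
      unfold im
      by_cases h8 : hd e ∈ U
      · have h9 : tl e ∈ U := hU2 _ h8 _ (hS e he)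
        simp [h8, h9]
      · rcases ha e with h | h <;> by_cases h9 : tl e ∈ U <;> simp [h, h8, h9] <;> norm_num
    omega

end WoodW
end

section
/-!
# Pairing consecutive elements of chains
-/
open Finset Wood2 Wood3

namespace WoodW

set_option linter.unusedSectionVars false

variable {V : Type} [DecidableEq V]

/-- consecutive pairs -/
def prs : List V → List (V × V)
  | a :: b :: l => (a, b) :: prs l
  | _ => []

/-- what is left over -/
def lft : List V → List V
  | _ :: _ :: l => lft l
  | [a] => [a]
  | [] => []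

/-- number of ends equal to `v` -/
def ends (v : V) (ps : List (V × V)) : ℕ :=
  ps.countP (fun x => decide (x.1 = v)) + ps.countP (fun x => decide (x.2 = v))

/-- number of separated pairs -/
def sepn (U : Finset V) (ps : List (V × V)) : ℕ :=
  ps.countP (fun x => decide (¬ (x.1 ∈ U ↔ x.2 ∈ U)))

/-- number of elements in `U` -/
def inn (U : Finset V) (l : List V) : ℕ := l.countP (fun x => decide (x ∈ U))

theorem sepn_append (U : Finset V) (a b : List (V × V)) :
    sepn U (a ++ b) = sepn U a + sepn U b := List.countP_append ..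

theorem inn_append (U : Finset V) (a b : List V) :
    inn U (a ++ b) = inn U a + inn U b := List.countP_append ..

theorem ends_append (v : V) (a b : List (V × V)) :
    ends v (a ++ b) = ends v a + ends v b := by
  unfold ends
  rw [List.countP_append, List.countP_append]
  omega

theorem inn_le (U : Finset V) (l : List V) : inn U l ≤ l.length := List.countP_le_length

theorem inn_cons (U : Finset V) (a : V) (l : List V) :
    inn U (a :: l) = inn U l + if a ∈ U then 1 else 0 := by
  unfold inn
  rw [List.countP_cons]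
  simp

theorem sepn_cons (U : Finset V) (a b : V) (l : List (V × V)) :
    sepn U ((a, b) :: l) = sepn U l + if (a ∈ U ↔ b ∈ U) then 0 else 1 := by
  unfold sepn
  rw [List.countP_cons]
  by_cases h : (a ∈ U ↔ b ∈ U) <;> simp [h]

theorem sepn_compl [Fintype V] (U : Finset V) (ps : List (V × V)) : sepn Uᶜ ps = sepn U ps := by
  unfold sepn
  congr 1
  funext x
  simp only [mem_compl, not_iff_not]

theorem prs_count (v : V) : ∀ l : List V, l.count v = ends v (prs l) + (lft l).count v
  | [] => by simp [prs, lft, ends]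
  | [a] => by simp [prs, lft, ends]
  | a :: b :: l => by
    rw [prs, lft, List.count_cons, List.count_cons, prs_count v l]
    unfold ends
    rw [List.countP_cons, List.countP_cons]
    simp only [beq_iff_eq, decide_eq_true_eq]
    omega

theorem lft_length : ∀ l : List V, (lft l).length ≤ 1
  | [] => by simp [lft]
  | [a] => by simp [lft]
  | a :: b :: l => by rw [lft]; exact lft_length l

theorem prs_length : ∀ l : List V, l.length = 2 * (prs l).length + (lft l).length
  | [] => by simp [prs, lft]
  | [a] => by simp [prs, lft]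
  | a :: b :: l => by
    rw [prs, lft, List.length_cons, List.length_cons, List.length_cons, prs_length l]
    omega

/-- the elements of pairs and leftovers are in the list -/
theorem sepn_prs_zero (U : Finset V) : ∀ l : List V, (∀ x ∈ l, x ∉ U) → sepn U (prs l) = 0
  | [], _ => by simp [prs, sepn]
  | [a], _ => by simp [prs, sepn]
  | a :: b :: l, h => by
    rw [prs, sepn_cons, sepn_prs_zero U l fun x hx => h x (by simp [hx])]
    have h1 : a ∉ U := h a (by simp)
    have h2 : b ∉ U := h b (by simp)
    simp [h1, h2]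

theorem inn_lft_zero (U : Finset V) : ∀ l : List V, (∀ x ∈ l, x ∉ U) → inn U (lft l) = 0
  | [], _ => by simp [lft, inn]
  | [a], h => by
    have h1 : a ∉ U := h a (by simp)
    simp [lft, inn, h1]
  | a :: b :: l, h => by
    rw [lft]
    exact inn_lft_zero U l fun x hx => h x (by simp [hx])

/-- the number of separated pairs is at most the number of elements in `U` -/
theorem sepn_le_inn (U : Finset V) : ∀ l : List V, sepn U (prs l) ≤ inn U l
  | [] => by simp [prs, sepn]
  | [a] => by simp [prs, sepn]
  | a :: b :: l => by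
    rw [prs, sepn_cons, inn_cons, inn_cons]
    have := sepn_le_inn U l
    by_cases h1 : a ∈ U <;> by_cases h2 : b ∈ U <;> simp [h1, h2] <;> omega

/-- a sorted list and a down-set -/
theorem dn_prs {r : V → V → Prop} {W : Finset V} (hW : Dn r W) : ∀ l : List V, l.Pairwise r →
    sepn W (prs l) + inn W (lft l) ≤ 1
  | [], _ => by simp [prs, lft, sepn, inn]
  | [a], _ => by
    simp only [prs, lft]
    have := inn_le W [a]
    simp only [List.length_cons, List.length_nil] at this
    simpa [sepn] using this
  | a :: b :: l, h => by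
    rw [List.pairwise_cons, List.pairwise_cons] at h
    obtain ⟨h1, h2, h3⟩ := h
    rw [prs, lft, sepn_cons]
    by_cases hb : b ∈ W
    · have ha : a ∈ W := hW b hb a (h1 b (by simp))
      have := dn_prs hW l h3
      simp [ha, hb]
      omega
    · have h4 : ∀ x ∈ l, x ∉ W := fun x hx hxW => hb (hW x hxW b (h2 x hx))
      rw [sepn_prs_zero W l h4, inn_lft_zero W l h4]
      split_ifs <;> omega

theorem up_prs [Fintype V] {r : V → V → Prop} {U : Finset V} (hU : Up r U) (l : List V)
    (h : l.Pairwise r) : sepn U (prs l) ≤ 1 := by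
  have h1 : Dn r Uᶜ := by
    intro u hu v hvu
    rw [mem_compl] at hu ⊢
    exact fun hv => hu (hU v hv u hvu)
  have := dn_prs h1 l h
  rw [sepn_compl] at this
  omega

/-- sorted lists of finite chains -/
theorem exists_sorted {r : V → V → Prop} (hrefl : ∀ v, r v v)
    (htr : ∀ u v w, r u v → r v w → r u w) : ∀ (n : ℕ) (C : Finset V), C.card = n →
    (∀ u ∈ C, ∀ v ∈ C, r u v ∨ r v u) → ∃ l : List V, l.Pairwise r ∧ l.Nodup ∧ l.toFinset = C := by
  classical
  intro n
  induction n with
  | zero =>
    intro C hC _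
    exact ⟨[], List.Pairwise.nil, List.nodup_nil, by rw [card_eq_zero.1 hC]; rfl⟩
  | succ n ih =>
    intro C hC htot
    obtain ⟨a, ha, hmax⟩ := exists_max_image C (fun a => (C.filter fun x => r a x).card)
      (card_pos.1 (by omega))
    have hall : ∀ x ∈ C, r a x := by
      intro x hx
      by_contra hn
      have h1 : r x a := (htot a ha x hx).resolve_left hn
      have h2 : (C.filter fun y => r a y) ⊂ C.filter fun y => r x y := by
        rw [ssubset_iff_of_subset]
        · exact ⟨x, mem_filter.2 ⟨hx, hrefl x⟩, fun h => hn (mem_filter.1 h).2⟩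
        · intro y hy
          rw [mem_filter] at hy ⊢
          exact ⟨hy.1, htr _ _ _ h1 hy.2⟩
      have h3 := card_lt_card h2
      have h4 := hmax x hx
      omega
    obtain ⟨l, h1, h2, h3⟩ := ih (C.erase a) (by rw [card_erase_of_mem ha]; omega)
      (fun u hu v hv => htot u (mem_of_mem_erase hu) v (mem_of_mem_erase hv))
    refine ⟨a :: l, ?_, ?_, ?_⟩
    · rw [List.pairwise_cons]
      refine ⟨fun x hx => hall x ?_, h1⟩
      have : x ∈ C.erase a := by rw [← h3]; exact List.mem_toFinset.2 hx
      exact mem_of_mem_erase this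
    · rw [List.nodup_cons]
      refine ⟨fun h => ?_, h2⟩
      have : a ∈ C.erase a := by rw [← h3]; exact List.mem_toFinset.2 h
      exact (mem_erase.1 this).1 rfl
    · rw [List.toFinset_cons, h3, insert_erase ha]

theorem count_eq {l : List V} {C : Finset V} (h1 : l.Nodup) (h2 : l.toFinset = C) (v : V) :
    l.count v = if v ∈ C then 1 else 0 := by
  rw [List.Nodup.count h1]
  simp only [← h2, List.mem_toFinset]

theorem length_eq {l : List V} {C : Finset V} (h1 : l.Nodup) (h2 : l.toFinset = C) :
    l.length = C.card := by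
  rw [← h2, List.toFinset_card_of_nodup h1]

end WoodW
end
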