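import Pool.Agent.Lib.MP_492a9e_co.W.Scheme

/-!
# Odd vertices covered by chains
-/

open Finset Wood2 Wood3

namespace WoodW

set_option linter.unusedSectionVars false

variable {V : Type} [DecidableEq V]

/-- the cost of a protected chain with `n` elements -/
def cost (n : ℕ) : ℕ := min n (2 + n % 2)

/-- a protected chain -/
theorem protect [Fintype V] {r : V → V → Prop} (l : List V) (h : l.Pairwise r) :
    ∃ (ps : List (V × V)) (ss : List V), (∀ v, ends v ps + ss.count v = l.count v) ∧
      ss.length ≤ cost l.length ∧ (∀ U, Up r U → sepn U ps ≤ inn U ss) ∧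
      ∀ U, Dn r U → sepn U ps ≤ inn U ss := by
  cases l with
  | nil => exact ⟨[], [], by simp [ends], by simp, by simp [sepn], by simp [sepn]⟩
  | cons a l =>
    rcases List.eq_nil_or_concat l with rfl | ⟨mid, z, rfl⟩
    · exact ⟨[], [a], by simp [ends], by simp [cost], by simp [sepn], by simp [sepn]⟩
    · rw [List.concat_eq_append] at h ⊢
      rw [List.pairwise_cons, List.pairwise_append] at h
      obtain ⟨h1, h2, -, h3⟩ := h
      refine ⟨prs mid, a :: z :: lft mid, fun v => ?_, ?_, fun U hU => ?_, fun W hW => ?_⟩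
      · rw [List.count_cons, List.count_cons, List.count_cons, List.count_append, prs_count v mid,
          List.count_singleton]
        omega
      · have h4 := prs_length mid
        have h5 := lft_length mid
        unfold cost
        simp only [List.length_cons, List.length_append, List.length_nil]
        omega
      · rw [inn_cons, inn_cons]
        by_cases h4 : ∀ x ∈ mid, x ∉ U
        · rw [sepn_prs_zero U mid h4]; omega
        · push Not at h4
          obtain ⟨x, hx, hxU⟩ := h4
          have h5 : z ∈ U := hU x hxU z (h3 x hx z (by simp))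
          have h6 := up_prs hU mid h2
          simp only [h5, if_true]
          omega
      · rw [inn_cons, inn_cons]
        by_cases h4 : ∀ x ∈ mid, x ∉ W
        · rw [sepn_prs_zero W mid h4]; omega
        · push Not at h4
          obtain ⟨x, hx, hxU⟩ := h4
          have h5 : a ∈ W := hW x hxU a (h1 x (by simp [hx]))
          have h6 := dn_prs hW mid h2
          simp only [h5, if_true]
          omega

section Scheme

variable [Fintype V] {r : V → V → Prop}

/-- the sorted list of a chain -/
theorem chain_list (hrefl : ∀ v, r v v) (htr : ∀ u v w, r u v → r v w → r u w)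
    (T : Finset V) (c : V → ℕ) (hch : ∀ u ∈ T, ∀ v ∈ T, c u = c v → r u v ∨ r v u) (i : ℕ) :
    ∃ l : List V, l.Pairwise r ∧ (∀ v, l.count v = if v ∈ T ∧ c v = i then 1 else 0) ∧
      l.length = (T.filter fun v => c v = i).card := by
  obtain ⟨l, h1, h2, h3⟩ := exists_sorted hrefl htr _ (T.filter fun v => c v = i) rfl (by
    intro u hu v hv
    rw [mem_filter] at hu hv
    exact hch u hu.1 v hv.1 (hu.2.trans hv.2.symm))
  refine ⟨l, h1, fun v => ?_, length_eq h2 h3⟩
  rw [count_eq h2 h3 v]
  simp only [mem_filter]

theorem schemeP (hrefl : ∀ v, r v v) (htr : ∀ u v w, r u v → r v w → r u w)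
    (T : Finset V) (c : V → ℕ) (hch : ∀ u ∈ T, ∀ v ∈ T, c u = c v → r u v ∨ r v u)
    (P : Finset ℕ) :
    ∃ (ps : List (V × V)) (ss : List V),
      (∀ v, ends v ps + ss.count v = if v ∈ T ∧ c v ∈ P then 1 else 0) ∧
      ss.length ≤ ∑ i ∈ P, cost (T.filter fun v => c v = i).card ∧
      (∀ U, Up r U → sepn U ps ≤ inn U ss) ∧ ∀ U, Dn r U → sepn U ps ≤ inn U ss := by
  classical
  induction P using Finset.induction_on with
  | empty => exact ⟨[], [], by simp [ends], by simp, by simp [sepn], by simp [sepn]⟩
  | insert i P hi ih =>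
    obtain ⟨ps, ss, a1, a2, a3, a4⟩ := ih
    obtain ⟨l, b1, b2, b3⟩ := chain_list hrefl htr T c hch i
    obtain ⟨ps', ss', c1, c2, c3, c4⟩ := protect l b1
    refine ⟨ps' ++ ps, ss' ++ ss, fun v => ?_, ?_, fun U hU => ?_, fun U hU => ?_⟩
    · rw [ends_append, List.count_append]
      have h1 := a1 v
      have h2 := c1 v
      rw [b2 v] at h2
      have h3 : (if v ∈ T ∧ c v ∈ insert i P then 1 else 0) =
          (if v ∈ T ∧ c v = i then 1 else 0) + (if v ∈ T ∧ c v ∈ P then 1 else 0) := by
        by_cases h4 : v ∈ T <;> by_cases h5 : c v = i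
        · have h6 : c v ∉ P := fun h => hi (h5 ▸ h)
          simp [h4, h5, h5 ▸ h6]
        · simp [h4, h5]
        · simp [h4]
        · simp [h4]
      rw [h3, ← h1, ← h2]
      ring
    · rw [List.length_append, sum_insert hi, ← b3]
      omega
    · rw [sepn_append, inn_append]
      exact add_le_add (c3 U hU) (a3 U hU)
    · rw [sepn_append, inn_append]
      exact add_le_add (c4 U hU) (a4 U hU)

theorem schemeQ (hrefl : ∀ v, r v v) (htr : ∀ u v w, r u v → r v w → r u w)
    (T : Finset V) (c : V → ℕ) (hch : ∀ u ∈ T, ∀ v ∈ T, c u = c v → r u v ∨ r v u)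
    (Q : Finset ℕ) :
    ∃ (ps : List (V × V)) (ss : List V),
      (∀ v, ends v ps + ss.count v = if v ∈ T ∧ c v ∈ Q then 1 else 0) ∧
      ∀ U, Dn r U → sepn U ps + inn U ss ≤ Q.card := by
  classical
  induction Q using Finset.induction_on with
  | empty => exact ⟨[], [], by simp [ends], by simp [sepn, inn]⟩
  | insert i Q hi ih =>
    obtain ⟨ps, ss, a1, a2⟩ := ih
    obtain ⟨l, b1, b2, b3⟩ := chain_list hrefl htr T c hch i
    refine ⟨prs l ++ ps, lft l ++ ss, fun v => ?_, fun U hU => ?_⟩
    · rw [ends_append, List.count_append]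
      have h1 := a1 v
      have h2 := prs_count v l
      rw [b2 v] at h2
      have h3 : (if v ∈ T ∧ c v ∈ insert i Q then 1 else 0) =
          (if v ∈ T ∧ c v = i then 1 else 0) + (if v ∈ T ∧ c v ∈ Q then 1 else 0) := by
        by_cases h4 : v ∈ T <;> by_cases h5 : c v = i
        · have h6 : c v ∉ Q := fun h => hi (h5 ▸ h)
          simp [h4, h5, h5 ▸ h6]
        · simp [h4, h5]
        · simp [h4]
        · simp [h4]
      rw [h3, ← h1, h2]
      ring
    · rw [sepn_append, inn_append, card_insert_of_notMem hi]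
      have h1 := dn_prs hU l b1
      have h2 := a2 U hU
      omega

/-- both groups together -/
theorem scheme (hrefl : ∀ v, r v v) (htr : ∀ u v w, r u v → r v w → r u w)
    (T : Finset V) (c : V → ℕ) (hch : ∀ u ∈ T, ∀ v ∈ T, c u = c v → r u v ∨ r v u)
    (P Q : Finset ℕ) (hPQ : ∀ v ∈ T, c v ∈ P ∨ c v ∈ Q) (hT : Even T.card) (m : ℕ)
    (hP : ∑ i ∈ P, cost (T.filter fun v => c v = i).card ≤ 2 * m) :
    ∃ (ps : List (V × V)) (ss : List V),
      (∀ v, ends v ps + ss.count v = if v ∈ T then 1 else 0) ∧ ss.length ≤ 2 * m ∧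
      Even ss.length ∧ (∀ U, Up r U → sepn U ps ≤ inn U ss + Q.card) ∧
      ∀ U, Dn r U → sepn U ps ≤ inn U ss + Q.card := by
  classical
  obtain ⟨ps, ss, a1, a2, a3, a4⟩ := schemeP hrefl htr T c hch P
  obtain ⟨ps', ss', b1, b2⟩ := schemeQ hrefl htr T c hch (Q \ P)
  have hQ : (Q \ P).card ≤ Q.card := card_le_card sdiff_subset
  have hcount : ∀ v, ends v (ps ++ (ps' ++ prs ss')) + (ss ++ lft ss').count v =
      if v ∈ T then 1 else 0 := by
    intro v
    rw [ends_append, ends_append, List.count_append]
    have h1 := a1 v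
    have h2 := b1 v
    have h3 := prs_count v ss'
    have h4 : (if v ∈ T then 1 else 0) = (if v ∈ T ∧ c v ∈ P then 1 else 0) +
        (if v ∈ T ∧ c v ∈ Q \ P then 1 else 0) := by
      by_cases h5 : v ∈ T
      · by_cases h6 : c v ∈ P
        · simp [h5, h6]
        · have h7 := (hPQ v h5).resolve_left h6
          simp [h5, h6, h7]
      · simp [h5]
    rw [h4, ← h1, ← h2]
    omega
  have htot : ∑ v, (ends v (ps ++ (ps' ++ prs ss')) + (ss ++ lft ss').count v) = T.card := by
    rw [sum_congr rfl fun v _ => hcount v, sum_ite_mem, univ_inter, sum_const, smul_eq_mul, mul_one]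
  have hends : ∀ l : List (V × V), ∑ v, ends v l = 2 * l.length := by
    intro l
    induction l with
    | nil => simp [ends]
    | cons x l ih =>
      have h1 : ∀ v, ends v (x :: l) = ends v l + ((if x.1 = v then 1 else 0) +
          if x.2 = v then 1 else 0) := by
        intro v
        unfold ends
        rw [List.countP_cons, List.countP_cons]
        simp only [decide_eq_true_eq]
        omega
      rw [sum_congr rfl fun v _ => h1 v, sum_add_distrib, ih, sum_add_distrib, sum_ite_eq,
        sum_ite_eq, List.length_cons]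
      simp
      omega
  have hcnt : ∀ l : List V, ∑ v, l.count v = l.length := by
    intro l
    induction l with
    | nil => simp
    | cons x l ih =>
      simp only [List.count_cons, sum_add_distrib, ih, List.length_cons, beq_iff_eq]
      rw [sum_ite_eq]
      simp
  rw [sum_add_distrib, hends, hcnt] at htot
  have hlen : Even (ss ++ lft ss').length := by
    rw [← htot] at hT
    exact (Nat.even_add.1 hT).1 ⟨_, two_mul _⟩
  refine ⟨ps ++ (ps' ++ prs ss'), ss ++ lft ss', hcount, ?_, hlen, fun U hU => ?_, fun U hU => ?_⟩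
  · have h1 := lft_length ss'
    rw [List.length_append] at hlen ⊢
    obtain ⟨x, hx⟩ := hlen
    omega
  · have h1 : Dn r Uᶜ := by
      intro u hu v hvu
      rw [mem_compl] at hu ⊢
      exact fun hv => hu (hU v hv u hvu)
    have h2 := b2 Uᶜ h1
    have h3 := sepn_le_inn Uᶜ ss'
    rw [sepn_compl] at h2 h3
    have h4 := a3 U hU
    rw [sepn_append, sepn_append, inn_append]
    omega
  · have h2 := b2 U hU
    have h3 := sepn_le_inn U ss'
    have h4 := a4 U hU
    rw [sepn_append, sepn_append, inn_append]
    omega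

end Scheme

end WoodW
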