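import Pool.Agent.Lib.MP_492a9e_co.W.Chains

section
/-!
# Packing dijoins when the odd vertices are covered by chains
-/
open Finset Wood2 Wood3

namespace WoodW

set_option linter.unusedSectionVars false

theorem card_fin_get {X : Type} (l : List X) (P : X → Prop) [DecidablePred P] :
    (univ.filter fun i : Fin l.length => P l[i.1]).card = l.countP fun x => decide (P x) := by
  rw [card_filter]
  have h1 := Fin.sum_univ_fun_getElem l (fun x => if P x then 1 else 0)
  rw [h1]
  induction l with
  | nil => simp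
  | cons x l ih =>
    rw [List.map_cons, List.sum_cons, List.countP_cons,
      ih (Fin.sum_univ_fun_getElem l (fun x => if P x then 1 else 0))]
    simp only [decide_eq_true_eq]
    omega

variable {V A : Type} [Fintype V] [DecidableEq V] [Fintype A] [DecidableEq A]

/-- degree -/
def deg (tl hd : A → V) (S : Finset A) (v : V) : ℕ :=
  (S.filter fun e => tl e = v).card + (S.filter fun e => hd e = v).card

/-- **Eulerian completion**, list form -/
theorem completion_list {r : V → V → Prop} (hrefl : ∀ v, r v v)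
    (htr : ∀ u v w, r u v → r v w → r u w) {tl hd : A → V} {S : Finset A}
    (hS : ∀ e ∈ S, r (tl e) (hd e)) {m : ℕ} (hm : 0 < m) (ps : List (V × V)) (ss : List V)
    (hss : ss.length = 2 * m)
    (heven : ∀ v, Even (deg tl hd S v + ends v ps + ss.count v))
    (hU : ∀ U : Finset V, U.Nonempty → Up r U → 2 * m + sepn U ps ≤
      (S.filter fun e => tl e ∉ U ∧ hd e ∈ U).card + inn U ss)
    (hW : ∀ U : Finset V, U.Nonempty → Dn r U → 2 * m + sepn U ps ≤
      (S.filter fun e => tl e ∈ U ∧ hd e ∉ U).card + inn U ss) :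
    ∃ f : A → Fin m, Pk r tl hd S m f := by
  classical
  have hz : ∀ (P : V → Prop) [DecidablePred P],
      (univ.filter fun i : Fin (2 * m) => P (ss[i.1]'(by rw [hss]; exact i.2))).card =
        ss.countP fun x => decide (P x) := by
    intro P _
    rw [← card_fin_get ss P]
    refine card_bij (fun i _ => ⟨i.1, by rw [hss]; exact i.2⟩) ?_ ?_ ?_
    · intro i hi
      rw [mem_filter] at hi ⊢
      exact ⟨mem_univ _, hi.2⟩
    · intro a _ b _ hab
      have h1 : a.1 = b.1 := congrArg (fun x : Fin ss.length => x.1) hab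
      exact Fin.ext h1
    · intro i hi
      rw [mem_filter] at hi
      exact ⟨⟨i.1, by rw [← hss]; exact i.2⟩, mem_filter.2 ⟨mem_univ _, hi.2⟩, rfl⟩
  have hsp : ∀ U : Finset V, (sp (fun b : Fin ps.length => ps[b.1].1) (fun b => ps[b.1].2) U).card =
      sepn U ps := by
    intro U
    exact card_fin_get ps fun x => ¬ (x.1 ∈ U ↔ x.2 ∈ U)
  refine completion (B := Fin ps.length) hrefl htr hS hm (fun b => ps[b.1].1) (fun b => ps[b.1].2)
    (fun i => ss[i.1]'(by rw [hss]; exact i.2)) ?_ ?_ ?_
  · intro v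
    have h1 := heven v
    have h2 := card_fin_get ps fun x => x.1 = v
    have h3 := card_fin_get ps fun x => x.2 = v
    have h4 := hz fun x => x = v
    have h5 : ss.count v = ss.countP fun x => decide (x = v) := by
      unfold List.count
      congr 1
    rw [h2, h3, h4, ← h5]
    exact h1
  · intro U h1 h2
    rw [hsp, hz fun x => x ∈ U]
    exact hU U h1 h2
  · intro U h1 h2
    rw [hsp, hz fun x => x ∈ U]
    exact hW U h1 h2

/-- **odd vertices covered by chains** -/
theorem pack_chains {r : V → V → Prop} (hrefl : ∀ v, r v v)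
    (htr : ∀ u v w, r u v → r v w → r u w) {tl hd : A → V} {S : Finset A}
    (hS : ∀ e ∈ S, r (tl e) (hd e)) {m k : ℕ} (hm : 0 < m) (c : V → ℕ)
    (hch : ∀ u v, Odd (deg tl hd S u) → Odd (deg tl hd S v) → c u = c v → r u v ∨ r v u)
    (P Q : Finset ℕ) (hPQ : ∀ v, Odd (deg tl hd S v) → c v ∈ P ∨ c v ∈ Q)
    (hP : ∑ i ∈ P, cost (univ.filter fun v => Odd (deg tl hd S v) ∧ c v = i).card ≤ 2 * m)
    (hQ : 2 * m + Q.card ≤ k) (hcut : ∀ U, Cut r U → k ≤ (ent tl hd S U).card) :
    ∃ f : A → Fin m, Pk r tl hd S m f := by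
  classical
  rcases isEmpty_or_nonempty V with hV | ⟨⟨v0⟩⟩
  · refine ⟨fun _ => ⟨0, hm⟩, fun i U hU => ?_⟩
    obtain ⟨v, -⟩ := hU.1
    exact hV.elim v
  have hT : Even (univ.filter fun v => Odd (deg tl hd S v)).card := by
    rw [← even_sum_iff_even_card_odd]
    unfold deg
    rw [sum_add_distrib]
    have h1 : ∀ f : A → V, ∑ v, (S.filter fun e => f e = v).card = S.card := fun f =>
      (card_eq_sum_card_fiberwise fun e _ => mem_univ (f e)).symm
    rw [h1, h1]
    exact ⟨_, rfl⟩
  obtain ⟨ps, ss, a1, a2, a3, a4, a5⟩ := scheme hrefl htr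
    (univ.filter fun v => Odd (deg tl hd S v)) c (fun u hu v hv => hch u v (mem_filter.1 hu).2
      (mem_filter.1 hv).2) P Q (fun v hv => hPQ v (mem_filter.1 hv).2) hT m (by
        simpa only [filter_filter] using hP)
  have hinn : ∀ U, inn U (ss ++ List.replicate (2 * m - ss.length) v0) = inn U ss +
      (if v0 ∈ U then 2 * m - ss.length else 0) := by
    intro U
    rw [inn_append]
    congr 1
    unfold inn
    rw [List.countP_replicate]
    simp
  have hlen : (ss ++ List.replicate (2 * m - ss.length) v0).length = 2 * m := by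
    rw [List.length_append, List.length_replicate]
    omega
  have huniv : inn univ (ss ++ List.replicate (2 * m - ss.length) v0) = 2 * m := by
    rw [hinn univ]
    have : inn univ ss = ss.length := by
      unfold inn
      rw [List.countP_eq_length]
      simp
    rw [this]
    simp only [mem_univ, if_true]
    omega
  have hsu : sepn univ ps = 0 := by
    unfold sepn
    rw [List.countP_eq_zero]
    simp
  refine completion_list hrefl htr hS hm ps (ss ++ List.replicate (2 * m - ss.length) v0) hlen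
    ?_ ?_ ?_
  · intro v
    rw [List.count_append, ← add_assoc, add_assoc (deg tl hd S v), a1 v]
    have h1 : Even (List.count v (List.replicate (2 * m - ss.length) v0)) := by
      rw [List.count_replicate]
      split_ifs
      · rw [Nat.even_sub a2]
        exact ⟨fun _ => a3, fun _ => ⟨m, two_mul m⟩⟩
      · exact Even.zero
    refine Even.add ?_ h1
    by_cases h2 : Odd (deg tl hd S v)
    · simp only [mem_filter, mem_univ, true_and, h2, if_true]
      exact h2.add_odd odd_one
    · simp only [mem_filter, mem_univ, true_and, h2, if_false, add_zero]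
      exact Nat.not_odd_iff_even.1 h2
  · intro U h1 h2
    by_cases h3 : U = univ
    · rw [h3, huniv, hsu]; omega
    · have h4 := hcut U ⟨h1, h3, h2⟩
      unfold ent at h4
      have h5 := a4 U h2
      have h6 := hinn U
      omega
  · intro U h1 h2
    by_cases h3 : U = univ
    · rw [h3, huniv, hsu]; omega
    · have h4 := hcut Uᶜ ⟨by
          rw [nonempty_iff_ne_empty]
          exact fun h => h3 (compl_eq_empty_iff _ |>.1 h), fun h => by
          obtain ⟨x, hx⟩ := h1
          exact (mem_compl.1 (h ▸ mem_univ x : x ∈ Uᶜ)) hx, fun u hu v huv => by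
          rw [mem_compl] at hu ⊢
          exact fun hv => hu (h2 v hv u huv)⟩
      have h7 : ent tl hd S Uᶜ = S.filter fun e => tl e ∈ U ∧ hd e ∉ U := by
        ext e
        simp only [mem_ent, mem_filter, mem_compl, not_not]
      rw [h7] at h4
      have h5 := a5 U h2
      have h6 := hinn U
      omega

end WoodW
end

section
/-!
# Odd strong components covered by chains: digraphs
-/
open Finset Wood2 Wood3

namespace WoodW

set_option linter.unusedSectionVars false

variable {V A : Type} [Fintype V] [Fintype A]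

open Classical in
/-- `v` if it lies in the weak component of `c`, and `c` otherwise -/
noncomputable def piC (tl hd : A → V) (c v : V) : V := if Cn tl hd c v then v else c

/-- reachability inside the weak component of `c` (all other vertices are identified with `c`) -/
def RC (tl hd : A → V) (c x y : V) : Prop := Re tl hd (piC tl hd c x) (piC tl hd c y)

open Classical in
/-- the arcs of `S` in the weak component of `c` -/
noncomputable def TC (tl hd : A → V) (S : Set A) (c : V) : Finset A :=
  univ.filter fun a => a ∈ S ∧ Cn tl hd c (tl a)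

theorem cn_pi (tl hd : A → V) (c v : V) : Cn tl hd c (piC tl hd c v) := by
  unfold piC
  split_ifs with h
  · exact h
  · exact Relation.ReflTransGen.refl

theorem pi_eq {tl hd : A → V} {c v : V} (h : Cn tl hd c v) : piC tl hd c v = v := if_pos h

theorem pi_pi (tl hd : A → V) (c v : V) : piC tl hd c (piC tl hd c v) = piC tl hd c v :=
  pi_eq (cn_pi tl hd c v)

theorem re_arc (tl hd : A → V) (a : A) : Re tl hd (tl a) (hd a) :=
  Relation.ReflTransGen.single ⟨a, rfl, rfl⟩

theorem rc_refl (tl hd : A → V) (c v : V) : RC tl hd c v v := Relation.ReflTransGen.refl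

theorem rc_trans {tl hd : A → V} {c u v w : V} (h : RC tl hd c u v) (h' : RC tl hd c v w) :
    RC tl hd c u w := Relation.ReflTransGen.trans h h'

theorem rc_arc {tl hd : A → V} {S : Set A} {c : V} {a : A} (h : a ∈ TC tl hd S c) :
    RC tl hd c (tl a) (hd a) := by
  classical
  obtain ⟨-, -, h1⟩ := mem_filter.1 h
  unfold RC
  rw [pi_eq h1, pi_eq (h1.trans (re_arc tl hd a).cn)]
  exact re_arc tl hd a

/-- cuts of a component -/
theorem cut_comp [DecidableEq V] [DecidableEq A] (tl hd : A → V) (S : Set A) (k : ℕ) (c : V)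
    (hcut : ∀ U : Set V, (∀ a, tl a ∈ U → hd a ∈ U) → (∃ a, tl a ∉ U ∧ hd a ∈ U) →
      k ≤ {a ∈ S | tl a ∉ U ∧ hd a ∈ U}.ncard) (U : Finset V) (hU : Cut (RC tl hd c) U) :
    k ≤ (ent tl hd (TC tl hd S c) U).card := by
  classical
  have hup : ∀ c x y, Cn tl hd c x → Re tl hd x y → Cn tl hd c y := fun c x y h1 h2 => h1.trans h2.cn
  have hdn : ∀ c x y, Cn tl hd c x → Re tl hd y x → Cn tl hd c y :=
    fun c x y h1 h2 => h1.trans h2.cn.symm
  have hmem : ∀ v, v ∈ U ↔ piC tl hd c v ∈ U := by
    intro v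
    constructor
    · intro hv
      refine hU.2.2 v hv _ ?_
      change Re tl hd (piC tl hd c v) (piC tl hd c (piC tl hd c v))
      rw [pi_pi]; exact Relation.ReflTransGen.refl
    · intro hv
      refine hU.2.2 _ hv v ?_
      change Re tl hd (piC tl hd c (piC tl hd c v)) (piC tl hd c v)
      rw [pi_pi]; exact Relation.ReflTransGen.refl
  let X : Set V := {v | Cn tl hd c v ∧ v ∈ U}
  have hX : ∀ a, tl a ∈ X → hd a ∈ X := by
    rintro a ⟨h1, h2⟩
    have h3 := hup c _ _ h1 (re_arc tl hd a)
    refine ⟨h3, hU.2.2 _ h2 _ ?_⟩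
    change Re tl hd (piC tl hd c (tl a)) (piC tl hd c (hd a))
    rw [pi_eq h1, pi_eq h3]
    exact re_arc tl hd a
  have hne : ∃ a, tl a ∉ X ∧ hd a ∈ X := by
    obtain ⟨u, hu⟩ := hU.1
    obtain ⟨v, hv⟩ : ∃ v, v ∉ U := by
      by_contra hn
      push Not at hn
      exact hU.2.1 (eq_univ_iff_forall.2 hn)
    rw [hmem] at hu hv
    rcases exists_cross (X := X) ((cn_pi tl hd c u).symm.trans (cn_pi tl hd c v))
      ⟨cn_pi tl hd c u, hu⟩ (fun h => hv h.2) with ⟨a, h1, h2⟩ | h1
    · exact absurd (hX a h1) h2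
    · exact h1
  refine (hcut X hX hne).trans ?_
  have hsub : {a ∈ S | tl a ∉ X ∧ hd a ∈ X} ⊆ (ent tl hd (TC tl hd S c) U : Set A) := by
    rintro a ⟨h1, h2, h3, h4⟩
    have h5 : Cn tl hd c (tl a) := hdn c _ _ h3 (re_arc tl hd a)
    rw [mem_coe, mem_ent]
    exact ⟨mem_filter.2 ⟨mem_univ _, h1, h5⟩, fun h6 => h2 ⟨h5, h6⟩, h4⟩
  have := Set.ncard_le_ncard hsub (Finset.finite_toSet _)
  rwa [Set.ncard_coe_finset] at this

/-- packings of all weak components give a packing of the digraph -/
theorem glue_comp (tl hd : A → V) (S : Set A) (m : ℕ)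
    (hF : ∀ c, ∃ f : A → Fin m, Pk (RC tl hd c) tl hd (TC tl hd S c) m f) :
    ∃ J : Fin m → Set A, (∀ i, J i ⊆ S) ∧ (∀ i j, i ≠ j → Disjoint (J i) (J j)) ∧
      ∀ i, ∀ U : Set V, (∀ a, tl a ∈ U → hd a ∈ U) → (∃ a, tl a ∉ U ∧ hd a ∈ U) →
        ∃ a ∈ J i, tl a ∉ U ∧ hd a ∈ U := by
  classical
  choose F hF using hF
  let s : Setoid V := ⟨Cn tl hd, fun _ => Relation.ReflTransGen.refl, fun h => h.symm,
    fun h h' => h.trans h'⟩
  let rep : V → V := fun v => (Quotient.mk s v).out
  have hrep : ∀ v, Cn tl hd (rep v) v := fun v => Quotient.exact (Quotient.out_eq (Quotient.mk s v))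
  have hrep2 : ∀ u v, Cn tl hd u v → rep u = rep v := by
    intro u v h
    have : Quotient.mk s u = Quotient.mk s v := Quotient.sound h
    simp only [rep, this]
  let f : A → Fin m := fun a => F (rep (tl a)) a
  refine ⟨fun i => {a | a ∈ S ∧ f a = i}, fun i a ha => ha.1, ?_, ?_⟩
  · intro i j hij
    rw [Set.disjoint_left]
    rintro a ⟨_, h1⟩ ⟨_, h3⟩
    exact hij (h1.symm.trans h3)
  · rintro i U hU ⟨a0, h1, h2⟩
    have hcr : ∀ u ∈ U, ∀ v, Re tl hd u v → v ∈ U := by
      intro u hu v h
      induction h with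
      | refl => exact hu
      | tail _ hs ih =>
        obtain ⟨a, h3, h4⟩ := hs
        rw [← h4]
        exact hU a (h3 ▸ ih)
    set c := rep (tl a0) with hc
    have hc0 : Cn tl hd c (tl a0) := hrep _
    have hc1 : Cn tl hd c (hd a0) := hc0.trans (re_arc tl hd a0).cn
    obtain ⟨e, he, h3, h4, h5⟩ := hF c i (univ.filter fun v => piC tl hd c v ∈ U) ⟨⟨hd a0, by
        rw [mem_filter, pi_eq hc1]
        exact ⟨mem_univ _, h2⟩⟩, fun h6 => by
        have h7 : tl a0 ∈ univ.filter fun v => piC tl hd c v ∈ U := by rw [h6]; exact mem_univ _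
        rw [mem_filter, pi_eq hc0] at h7
        exact h1 h7.2, by
        intro u hu v huv
        rw [mem_filter] at hu ⊢
        exact ⟨mem_univ _, hcr _ hu.2 _ huv⟩⟩
    obtain ⟨-, h6, h7⟩ := mem_filter.1 he
    rw [mem_filter, pi_eq h7] at h4
    rw [mem_filter, pi_eq (h7.trans (re_arc tl hd e).cn)] at h5
    refine ⟨e, ⟨h6, ?_⟩, fun h8 => h4 ⟨mem_univ _, h8⟩, h5.2⟩
    change F (rep (tl e)) e = i
    have h8 : rep (tl e) = c := by
      rw [hc]
      exact hrep2 _ _ (h7.symm.trans hc0)
    rw [h8]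
    exact h3

/-- the strong component of `v` -/
def scomp (tl hd : A → V) (v : V) : Set V := {x | Re tl hd v x ∧ Re tl hd x v}

/-- the odd strong components: an odd number of arcs of `S` have exactly one end in `K` -/
def ocomps (tl hd : A → V) (S : Set A) : Set (Set V) :=
  {K | (∃ v, K = scomp tl hd v) ∧ Odd {a ∈ S | ¬ (tl a ∈ K ↔ hd a ∈ K)}.ncard}

theorem mem_scomp_self (tl hd : A → V) (v : V) : v ∈ scomp tl hd v :=
  ⟨Relation.ReflTransGen.refl, Relation.ReflTransGen.refl⟩

theorem scomp_eq {tl hd : A → V} {u v : V} (h : Re tl hd u v) (h' : Re tl hd v u) :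
    scomp tl hd u = scomp tl hd v := by
  ext x
  exact ⟨fun hx => ⟨Relation.ReflTransGen.trans h' hx.1, Relation.ReflTransGen.trans hx.2 h⟩,
    fun hx => ⟨Relation.ReflTransGen.trans h hx.1, Relation.ReflTransGen.trans hx.2 h'⟩⟩

theorem parity_xor {X : Type} (T : Finset X) (p q : X → Prop) [DecidablePred p] [DecidablePred q] :
    Odd ((T.filter p).card + (T.filter q).card) ↔ Odd (T.filter fun x => ¬ (p x ↔ q x)).card := by
  classical
  have h1 : (T.filter p).card + (T.filter q).card = (T.filter fun x => ¬ (p x ↔ q x)).card +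
      2 * (T.filter fun x => p x ∧ q x).card := by
    rw [card_filter, card_filter, card_filter, card_filter, mul_sum, ← sum_add_distrib,
      ← sum_add_distrib]
    refine sum_congr rfl fun x _ => ?_
    by_cases h : p x <;> by_cases h' : q x <;> simp [h, h']
  rw [h1, Nat.odd_add]
  simp

/-- **odd strong components covered by chains** -/
theorem pack_odd_chains (tl hd : A → V) (S : Set A) (k m : ℕ) (c : Set V → ℕ) (P Q : Finset ℕ)
    (hcover : ∀ K ∈ ocomps tl hd S, c K ∈ P ∨ c K ∈ Q)
    (hchain : ∀ K ∈ ocomps tl hd S, ∀ L ∈ ocomps tl hd S, c K = c L → ∀ x ∈ K, ∀ y ∈ L,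
      Re tl hd x y ∨ Re tl hd y x)
    (hP : ∑ i ∈ P, cost {K ∈ ocomps tl hd S | c K = i}.ncard ≤ 2 * m)
    (hQ : 2 * m + Q.card ≤ k)
    (hcut : ∀ U : Set V, (∀ a, tl a ∈ U → hd a ∈ U) → (∃ a, tl a ∉ U ∧ hd a ∈ U) →
      k ≤ {a ∈ S | tl a ∉ U ∧ hd a ∈ U}.ncard) :
    ∃ J : Fin m → Set A, (∀ i, J i ⊆ S) ∧ (∀ i j, i ≠ j → Disjoint (J i) (J j)) ∧
      ∀ i, ∀ U : Set V, (∀ a, tl a ∈ U → hd a ∈ U) → (∃ a, tl a ∉ U ∧ hd a ∈ U) →
        ∃ a ∈ J i, tl a ∉ U ∧ hd a ∈ U := by
  classical
  rcases Nat.eq_zero_or_pos m with rfl | hm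
  · exact ⟨fun _ => ∅, fun i => i.elim0, fun i => i.elim0, fun i => i.elim0⟩
  refine glue_comp tl hd S m fun x => ?_
  -- representatives of the classes
  let s : Setoid V := ⟨fun u v => RC tl hd x u v ∧ RC tl hd x v u,
    fun u => ⟨rc_refl .., rc_refl ..⟩, fun h => ⟨h.2, h.1⟩,
    fun h h' => ⟨rc_trans h.1 h'.1, rc_trans h'.2 h.2⟩⟩
  let ρ : V → V := fun v => (Quotient.mk s v).out
  have hρ : ∀ v, RC tl hd x (ρ v) v ∧ RC tl hd x v (ρ v) := fun v =>
    Quotient.exact (Quotient.out_eq (Quotient.mk s v))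
  have hρ2 : ∀ u v, RC tl hd x u v → RC tl hd x v u → ρ u = ρ v := by
    intro u v h h'
    have : Quotient.mk s u = Quotient.mk s v := Quotient.sound ⟨h, h'⟩
    simp only [ρ, this]
  have hρρ : ∀ v, ρ (ρ v) = ρ v := fun v => hρ2 _ _ (hρ v).1 (hρ v).2
  have hup : ∀ U, Up (RC tl hd x) U → ∀ v, ρ v ∈ U ↔ v ∈ U := fun U hU v =>
    ⟨fun h => hU _ h _ (hρ v).1, fun h => hU _ h _ (hρ v).2⟩
  have hent : ∀ U, Up (RC tl hd x) U → ent (fun e => ρ (tl e)) (fun e => ρ (hd e))
      (TC tl hd S x) U = ent tl hd (TC tl hd S x) U := by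
    intro U hU
    ext e
    rw [mem_ent, mem_ent, hup U hU, hup U hU]
  -- odd vertices are representatives
  have hfix : ∀ v, Odd (deg (fun e => ρ (tl e)) (fun e => ρ (hd e)) (TC tl hd S x) v) →
      ρ v = v := by
    intro v hv
    by_contra hn
    have h2 : ∀ u, ρ u ≠ v := fun u h => hn (by rw [← h, hρρ])
    unfold deg at hv
    rw [filter_false_of_mem (fun e _ => h2 _), filter_false_of_mem (fun e _ => h2 _)] at hv
    simp at hv
  -- odd representatives and odd components
  have hiff : ∀ v, ρ v = v → (Odd (deg (fun e => ρ (tl e)) (fun e => ρ (hd e))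
      (TC tl hd S x) v) ↔ scomp tl hd (piC tl hd x v) ∈ ocomps tl hd S) := by
    intro v h1
    unfold deg
    rw [parity_xor]
    have h3 : ∀ u, Cn tl hd x u → (ρ u = v ↔ u ∈ scomp tl hd (piC tl hd x v)) := by
      intro u hu
      constructor
      · intro h
        have h4 := hρ u
        rw [h] at h4
        unfold RC at h4
        rw [pi_eq hu] at h4
        exact h4
      · rintro ⟨h4, h5⟩
        rw [← h1]
        refine hρ2 _ _ ?_ ?_
        · unfold RC; rw [pi_eq hu]; exact h5
        · unfold RC; rw [pi_eq hu]; exact h4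
    have h4 : {a ∈ S | ¬ (tl a ∈ scomp tl hd (piC tl hd x v) ↔
        hd a ∈ scomp tl hd (piC tl hd x v))} =
        (((TC tl hd S x).filter fun e => ¬ (ρ (tl e) = v ↔ ρ (hd e) = v) : Finset A) : Set A) := by
      ext a
      rw [mem_coe, mem_filter]
      unfold TC
      rw [mem_filter]
      constructor
      · rintro ⟨h5, h6⟩
        have h7 : Cn tl hd x (tl a) := by
          by_cases h8 : tl a ∈ scomp tl hd (piC tl hd x v)
          · exact (cn_pi tl hd x v).trans h8.1.cn
          · have h9 : hd a ∈ scomp tl hd (piC tl hd x v) := by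
              by_contra h10
              exact h6 ⟨fun h => absurd h h8, fun h => absurd h h10⟩
            exact ((cn_pi tl hd x v).trans h9.1.cn).trans (re_arc tl hd a).cn.symm
        refine ⟨⟨mem_univ _, h5, h7⟩, ?_⟩
        rw [h3 _ h7, h3 _ (h7.trans (re_arc tl hd a).cn)]
        exact h6
      · rintro ⟨⟨-, h5, h7⟩, h6⟩
        rw [h3 _ h7, h3 _ (h7.trans (re_arc tl hd a).cn)] at h6
        exact ⟨h5, h6⟩
    constructor
    · intro h
      refine ⟨⟨_, rfl⟩, ?_⟩
      rw [h4, Set.ncard_coe_finset]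
      exact h
    · rintro ⟨-, h⟩
      rw [h4, Set.ncard_coe_finset] at h
      exact h
  have hrepr : ∀ v, Odd (deg (fun e => ρ (tl e)) (fun e => ρ (hd e)) (TC tl hd S x) v) →
      scomp tl hd (piC tl hd x v) ∈ ocomps tl hd S := fun v hv => (hiff v (hfix v hv)).1 hv
  obtain ⟨f, hf⟩ := pack_chains (r := RC tl hd x) (fun v => rc_refl ..)
    (fun u v w h h' => rc_trans h h') (tl := fun e => ρ (tl e)) (hd := fun e => ρ (hd e))
    (S := TC tl hd S x) (fun e he => rc_trans (rc_trans (hρ _).1 (rc_arc he)) (hρ _).2) hm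
    (fun v => c (scomp tl hd (piC tl hd x v)))
    (fun u v hu hv huv => hchain _ (hrepr u hu) _ (hrepr v hv) huv _ (mem_scomp_self ..) _
      (mem_scomp_self ..))
    P Q (fun v hv => hcover _ (hrepr v hv)) (by
      refine (sum_le_sum fun i _ => ?_).trans hP
      by_cases hex : ∃ v0, Odd (deg (fun e => ρ (tl e)) (fun e => ρ (hd e)) (TC tl hd S x) v0) ∧
          c (scomp tl hd (piC tl hd x v0)) = i
      · obtain ⟨v0, hv0, hc0⟩ := hex
        refine le_of_eq ?_
        congr 1
        rw [← Set.ncard_coe_finset]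
        refine Set.ncard_congr (fun v _ => scomp tl hd (piC tl hd x v)) ?_ ?_ ?_
        · intro v hv
          rw [mem_coe, mem_filter] at hv
          exact ⟨hrepr v hv.2.1, hv.2.2⟩
        · intro u v hu hv huv
          rw [mem_coe, mem_filter] at hu hv
          have h1 : piC tl hd x v ∈ scomp tl hd (piC tl hd x u) := by
            have h3 : scomp tl hd (piC tl hd x u) = scomp tl hd (piC tl hd x v) := huv
            rw [h3]
            exact mem_scomp_self ..
          rw [← hfix u hu.2.1, ← hfix v hv.2.1]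
          exact hρ2 _ _ h1.1 h1.2
        · rintro K ⟨hK, hKi⟩
          obtain ⟨⟨w, rfl⟩, -⟩ := id hK
          have hw : Cn tl hd x w := by
            rcases hchain _ hK _ (hrepr v0 hv0) (hKi.trans hc0.symm) w (mem_scomp_self ..) _
              (mem_scomp_self ..) with h | h
            · exact (cn_pi tl hd x v0).trans h.cn.symm
            · exact (cn_pi tl hd x v0).trans h.cn
          have h1 := hρ w
          unfold RC at h1
          rw [pi_eq hw] at h1
          have h2 : scomp tl hd (piC tl hd x (ρ w)) = scomp tl hd w := scomp_eq h1.1 h1.2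
          refine ⟨ρ w, ?_, h2⟩
          rw [mem_coe, mem_filter, h2]
          refine ⟨mem_univ _, (hiff _ (hρρ w)).2 ?_, hKi⟩
          rw [h2]
          exact hK
      · rw [filter_false_of_mem fun v _ h => hex ⟨v, h⟩]
        exact Nat.zero_le _) hQ (by
      intro U hU
      rw [hent U hU.2.2]
      exact cut_comp tl hd S k x hcut U hU)
  refine ⟨f, fun i U hU => ?_⟩
  obtain ⟨e, h1, h2, h3, h4⟩ := hf i U hU
  exact ⟨e, h1, h2, fun h => h3 ((hup U hU.2.2 _).2 h), (hup U hU.2.2 _).1 h4⟩

end WoodW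
end
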